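import Pool.Agent.Lib.P548a.Base

/-!
# Module Growth: polynomial growth of the hierarchy bound
-/

set_option autoImplicit false

namespace Pool.Agent.Lib.P548a

open Pool.Agent.Lib.Pa76659

theorem Mb_poly (k : ℕ) : ∃ C : ℕ, 1 ≤ C ∧ ∀ w R t : ℕ, Hier.Mb w R k t ≤ C * (w + R + t + 1) ^ C := by
  induction k with
  | zero =>
      refine ⟨1, le_rfl, fun w R t => ?_⟩
      show t + 1 ≤ _
      rw [pow_one]
      omega
  | succ k ih =>
      obtain ⟨C, hC, h⟩ := ih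
      refine ⟨9 * (k + 4) * (C * (k + 4) ^ C + 1) + C + 2, by omega, fun w R t => ?_⟩
      show (8 * t + 9) * (R * (k + 1) + 3) * (Hier.Mb w R k (w * k + 2) + 1) ≤ _
      set s := w + R + t + 1 with hs
      have hs1 : 1 ≤ s := by omega
      have h1 : 8 * t + 9 ≤ 9 * s := by omega
      have h2 : R * (k + 1) + 3 ≤ (k + 4) * s := by nlinarith
      have h3 : w + R + (w * k + 2) + 1 ≤ (k + 4) * s := by nlinarith
      have h4 : Hier.Mb w R k (w * k + 2) + 1 ≤ (C * (k + 4) ^ C + 1) * s ^ C := by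
        have h5 := h w R (w * k + 2)
        have h6 : (w + R + (w * k + 2) + 1) ^ C ≤ (k + 4) ^ C * s ^ C := by
          rw [← mul_pow]; exact Nat.pow_le_pow_left h3 C
        have h7 : 1 ≤ s ^ C := Nat.one_le_pow _ _ hs1
        calc Hier.Mb w R k (w * k + 2) + 1 ≤ C * ((k + 4) ^ C * s ^ C) + s ^ C :=
              Nat.add_le_add (h5.trans (Nat.mul_le_mul_left _ h6)) h7
          _ = (C * (k + 4) ^ C + 1) * s ^ C := by ring
      calc (8 * t + 9) * (R * (k + 1) + 3) * (Hier.Mb w R k (w * k + 2) + 1)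
          ≤ (9 * s) * ((k + 4) * s) * ((C * (k + 4) ^ C + 1) * s ^ C) :=
            Nat.mul_le_mul (Nat.mul_le_mul h1 h2) h4
        _ = (9 * (k + 4) * (C * (k + 4) ^ C + 1)) * s ^ (C + 2) := by ring
        _ ≤ _ := Nat.mul_le_mul (by omega) (Nat.pow_le_pow_right hs1 (by omega))

theorem growth {ι : Type} (F : ι → ℕ → ℕ) (hF : Subexp F) (τ : Tm ι Unit) (k a b c : ℕ) : ∃ x₀ : ℕ, ∀ x : ℕ, x₀ ≤ x →
    Hier.Mb (a * (b * (Nat.log 2 (val F τ x) + 2) + 3)) (Nat.log 2 x + 1) k c ≤ x := by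
  obtain ⟨C, hC, h⟩ := Mb_poly k
  obtain ⟨x₁, hx₁⟩ := hF (Tm.add τ (Tm.var ())) (2 * C + 1)
  set K := 2 * a * b + 3 * a + c + 2 with hK
  refine ⟨max x₁ (2 ^ (C * K ^ C + 2)), fun x hx => ?_⟩
  have hx1 : x₁ ≤ x := le_trans (le_max_left _ _) hx
  have hx2 : 2 ^ (C * K ^ C + 2) ≤ x := le_trans (le_max_right _ _) hx
  have hx0 : x ≠ 0 := by
    have : 0 < 2 ^ (C * K ^ C + 2) := by positivity
    omega
  have h1 := hx₁ x hx1
  have e : (Tm.add τ (Tm.var ())).eval (NStr F (fun _ => false)) (fun _ => x) = val F τ x + x := rfl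
  rw [e] at h1
  set L := Nat.log 2 (val F τ x + x) with hL
  have hL1 : Nat.log 2 (val F τ x) ≤ L := Nat.log_mono_right (Nat.le_add_right _ _)
  have hL2 : Nat.log 2 x ≤ L := Nat.log_mono_right (Nat.le_add_left _ _)
  have hL3 : C * K ^ C + 2 ≤ L := (Nat.le_log_of_pow_le (by norm_num) hx2).trans hL2
  set l₁ := Nat.log 2 (val F τ x) with hl₁
  set l₂ := Nat.log 2 x with hl₂
  have h2 : a * (b * (l₁ + 2) + 3) + (l₂ + 1) + c + 1 ≤ K * (L + 1) := by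
    have h3 : a * (b * (l₁ + 2) + 3) ≤ a * (b * (L + 2) + 3) := by gcongr
    have h4 : a * (b * (L + 2) + 3) + (L + 1) + c + 1 ≤ K * (L + 1) := by
      rw [hK]; nlinarith [Nat.zero_le (a * b * L), Nat.zero_le (a * L), Nat.zero_le (c * L)]
    omega
  calc Hier.Mb (a * (b * (l₁ + 2) + 3)) (l₂ + 1) k c
      ≤ C * (a * (b * (l₁ + 2) + 3) + (l₂ + 1) + c + 1) ^ C := h _ _ _
    _ ≤ C * (K * (L + 1)) ^ C := Nat.mul_le_mul_left _ (Nat.pow_le_pow_left h2 C)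
    _ = (C * K ^ C) * (L + 1) ^ C := by rw [mul_pow]; ring
    _ ≤ L * (L ^ 2) ^ C := by
        refine Nat.mul_le_mul (by omega) (Nat.pow_le_pow_left ?_ C)
        have : 2 ≤ L := by omega
        nlinarith
    _ = L ^ (2 * C + 1) := by rw [← pow_mul, pow_succ]; ring
    _ ≤ x := h1

theorem log_pow_le (m : ℕ) : ∃ x₀ : ℕ, ∀ x : ℕ, x₀ ≤ x → (Nat.log 2 x + 2) ^ m ≤ x := by
  have h1 : ∀ᶠ n : ℕ in Filter.atTop, (n : ℝ) ^ m ≤ (1 / 4) * (2 : ℝ) ^ n := by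
    have h2 := (isLittleO_pow_const_const_pow_of_one_lt (R := ℝ) m (r := 2) (by norm_num)).bound
      (c := 1 / 4) (by norm_num)
    filter_upwards [h2] with n hn
    rwa [Real.norm_of_nonneg (by positivity), Real.norm_of_nonneg (by positivity)] at hn
  obtain ⟨n₀, hn₀⟩ := Filter.eventually_atTop.1 h1
  refine ⟨2 ^ n₀, fun x hx => ?_⟩
  have hx0 : x ≠ 0 := by
    have : 0 < 2 ^ n₀ := by positivity
    omega
  have hL0 : n₀ ≤ Nat.log 2 x := Nat.le_log_of_pow_le (by norm_num) hx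
  have hL2 : 2 ^ Nat.log 2 x ≤ x := Nat.pow_log_le_self 2 hx0
  have h6 := hn₀ (Nat.log 2 x + 2) (by omega)
  have h7 : (((Nat.log 2 x + 2) ^ m : ℕ) : ℝ) ≤ ((2 ^ Nat.log 2 x : ℕ) : ℝ) := by
    push_cast
    push_cast at h6
    calc ((Nat.log 2 x : ℝ) + 2) ^ m ≤ 1 / 4 * 2 ^ (Nat.log 2 x + 2) := h6
      _ = 2 ^ Nat.log 2 x := by rw [pow_add]; norm_num; ring
  exact (Nat.cast_le.1 h7).trans hL2

theorem log_add_le (a b : ℕ) : Nat.log 2 (a + b) ≤ max (Nat.log 2 a) (Nat.log 2 b) + 1 := by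
  have h1 : a < 2 ^ (Nat.log 2 a + 1) := Nat.lt_pow_succ_log_self (by norm_num) a
  have h2 : b < 2 ^ (Nat.log 2 b + 1) := Nat.lt_pow_succ_log_self (by norm_num) b
  have h3 : 2 ^ (Nat.log 2 a + 1) ≤ 2 ^ (max (Nat.log 2 a) (Nat.log 2 b) + 1) :=
    Nat.pow_le_pow_right (by norm_num) (Nat.succ_le_succ (le_max_left _ _))
  have h4 : 2 ^ (Nat.log 2 b + 1) ≤ 2 ^ (max (Nat.log 2 a) (Nat.log 2 b) + 1) :=
    Nat.pow_le_pow_right (by norm_num) (Nat.succ_le_succ (le_max_right _ _))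
  have h5 : a + b < 2 ^ (max (Nat.log 2 a) (Nat.log 2 b) + 1 + 1) := by
    rw [pow_succ 2 (max (Nat.log 2 a) (Nat.log 2 b) + 1)]
    omega
  exact Nat.le_of_lt_succ (Nat.log_lt_of_lt_pow' (by omega) h5)

theorem log_mul_le (a b : ℕ) : Nat.log 2 (a * b) ≤ Nat.log 2 a + Nat.log 2 b + 1 := by
  have h1 : a < 2 ^ (Nat.log 2 a + 1) := Nat.lt_pow_succ_log_self (by norm_num) a
  have h2 : b < 2 ^ (Nat.log 2 b + 1) := Nat.lt_pow_succ_log_self (by norm_num) b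
  have h5 : a * b < 2 ^ (Nat.log 2 a + Nat.log 2 b + 1 + 1) := by
    have e : 2 ^ (Nat.log 2 a + Nat.log 2 b + 1 + 1) = 2 ^ (Nat.log 2 a + 1) * 2 ^ (Nat.log 2 b + 1) := by
      rw [← pow_add]; congr 1; omega
    rw [e]
    exact Nat.mul_lt_mul_of_lt_of_le h1 h2.le (by positivity)
  exact Nat.le_of_lt_succ (Nat.log_lt_of_lt_pow' (by omega) h5)

theorem subexp_of_polylog {ι : Type} (F : ι → ℕ → ℕ) (hF : ∀ i, ∃ d : ℕ, ∀ y : ℕ, Nat.log 2 (F i y) ≤ (Nat.log 2 y + 2) ^ d) :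
    Subexp F := by
  have hterm : ∀ t : Tm ι Unit, ∃ d : ℕ, ∀ x : ℕ,
      Nat.log 2 (t.eval (NStr F (fun _ => false)) (fun _ => x)) ≤ (Nat.log 2 x + 2) ^ d := by
    intro t
    induction t with
    | var a => exact ⟨1, fun x => by show Nat.log 2 x ≤ _; rw [pow_one]; omega⟩
    | zero => exact ⟨0, fun x => by show Nat.log 2 0 ≤ _; simp⟩
    | one => exact ⟨0, fun x => by show Nat.log 2 1 ≤ _; simp⟩
    | add s t ih₁ ih₂ =>
        obtain ⟨d₁, h₁⟩ := ih₁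
        obtain ⟨d₂, h₂⟩ := ih₂
        refine ⟨d₁ + d₂ + 1, fun x => ?_⟩
        set L := Nat.log 2 x + 2 with hL
        have hL2 : 2 ≤ L := by omega
        have h3 : L ^ d₁ ≤ L ^ (d₁ + d₂) := Nat.pow_le_pow_right (by omega) (by omega)
        have h4 : L ^ d₂ ≤ L ^ (d₁ + d₂) := Nat.pow_le_pow_right (by omega) (by omega)
        have h5 : 1 ≤ L ^ (d₁ + d₂) := Nat.one_le_pow _ _ (by omega)
        have h6 := max_le ((h₁ x).trans h3) ((h₂ x).trans h4)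
        refine (log_add_le _ _).trans ?_
        rw [pow_succ]
        nlinarith
    | mul s t ih₁ ih₂ =>
        obtain ⟨d₁, h₁⟩ := ih₁
        obtain ⟨d₂, h₂⟩ := ih₂
        refine ⟨d₁ + d₂ + 2, fun x => ?_⟩
        set L := Nat.log 2 x + 2 with hL
        have hL2 : 2 ≤ L := by omega
        have h3 : L ^ d₁ ≤ L ^ (d₁ + d₂) := Nat.pow_le_pow_right (by omega) (by omega)
        have h4 : L ^ d₂ ≤ L ^ (d₁ + d₂) := Nat.pow_le_pow_right (by omega) (by omega)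
        have h5 : 1 ≤ L ^ (d₁ + d₂) := Nat.one_le_pow _ _ (by omega)
        have h6 := (h₁ x).trans h3
        have h7 := (h₂ x).trans h4
        refine (log_mul_le _ _).trans ?_
        rw [pow_add L (d₁ + d₂) 2]
        have h8 : 4 ≤ L ^ 2 := by nlinarith
        have h9 : L ^ (d₁ + d₂) * 4 ≤ L ^ (d₁ + d₂) * L ^ 2 := Nat.mul_le_mul_left _ h8
        omega
    | fn i t ih =>
        obtain ⟨d₁, h₁⟩ := ih
        obtain ⟨d₂, h₂⟩ := hF i
        refine ⟨(d₁ + 2) * d₂, fun x => ?_⟩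
        set L := Nat.log 2 x + 2 with hL
        have hL2 : 2 ≤ L := by omega
        refine (h₂ _).trans ?_
        rw [pow_mul]
        refine Nat.pow_le_pow_left ?_ d₂
        have h5 : 1 ≤ L ^ d₁ := Nat.one_le_pow _ _ (by omega)
        have h8 : 4 ≤ L ^ 2 := by nlinarith
        have h9 : L ^ d₁ * 4 ≤ L ^ d₁ * L ^ 2 := Nat.mul_le_mul_left _ h8
        have h10 : Nat.log 2 (t.eval (NStr F (fun _ => false)) (fun _ => x)) ≤ L ^ d₁ := h₁ x
        rw [pow_add]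
        omega
  intro t C
  obtain ⟨d, hd⟩ := hterm t
  obtain ⟨x₀, hx₀⟩ := log_pow_le (d * C)
  refine ⟨x₀, fun x hx => ?_⟩
  refine (Nat.pow_le_pow_left (hd x) C).trans ?_
  rw [← pow_mul]
  exact hx₀ x hx

end Pool.Agent.Lib.P548a
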