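import Pool.Agent.Lib.P548a.Base

/-!
# Module Sip: the Sipser formulas
-/

set_option autoImplicit false

namespace Pool.Agent.Lib.P548a

open Pool.Agent.Lib.Pa76659

theorem sipT_bounded {ι : Type} (j : ℕ) : ∀ {n : ℕ} (a c : Tm ι (Fin n)), (sipT j a c).Bounded := by
  induction j with
  | zero => intro n a c; trivial
  | succ j ih => intro n a c; exact ih _ _

theorem Tm.noFn_map {ι α β : Type} (f : α → β) (t : Tm ι α) (h : t.NoFn) : (t.map f).NoFn := by
  induction t with
  | var a => trivial
  | zero => trivial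
  | one => trivial
  | add s t ih₁ ih₂ => exact ⟨ih₁ h.1, ih₂ h.2⟩
  | mul s t ih₁ ih₂ => exact ⟨ih₁ h.1, ih₂ h.2⟩
  | fn i t ih => exact h.elim

theorem sipT_noFn {ι : Type} (j : ℕ) : ∀ {n : ℕ} (a c : Tm ι (Fin n)), a.NoFn → c.NoFn → (sipT j a c).NoFn := by
  induction j with
  | zero => intro n a c _ hc; exact hc
  | succ j ih =>
      intro n a c ha hc
      exact ⟨ha, ih _ _ (Tm.noFn_map _ _ ha) ⟨⟨Tm.noFn_map _ _ hc, Tm.noFn_map _ _ ha⟩, trivial⟩⟩

theorem sip_noFn (ι : Type) (k : ℕ) : (sip ι k).NoFn := sipT_noFn _ _ _ trivial trivial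

theorem sip_bounded (ι : Type) (k : ℕ) : (sip ι k).Bounded := sipT_bounded _ _ _

theorem sipT_sat {ι : Type} (F : ι → ℕ → ℕ) (A : ℕ → Bool) (x : ℕ) (j : ℕ) {n : ℕ} (a c : Tm ι (Fin n)) (v : Fin n → ℕ) (u : List ℕ)
    (ha : a.eval (NStr F A) v = x) (hc : c.eval (NStr F A) v = codeL x u) :
    (sipT j a c).sat (NStr F A) v ↔ Hier.tr (fun _ => x) j (fun l => A (codeL x l)) u = true := by
  induction j generalizing n u with
  | zero =>
      show A (c.eval (NStr F A) v) = true ↔ _
      rw [hc]; rfl
  | succ j ih =>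
      have key : ∀ y : ℕ, (sipT j (a.map Fin.succ) (Tm.add (Tm.mul (c.map Fin.succ) (a.map Fin.succ)) (Tm.var 0))).sat
          (NStr F A) (Fin.cons y v : Fin (n + 1) → ℕ) ↔ Hier.tr (fun _ => x) j (fun l => A (codeL x l)) (y :: u) = true := by
        intro y
        have h1 : (a.map Fin.succ).eval (NStr F A) (Fin.cons y v : Fin (n + 1) → ℕ) = x := by
          rw [Tm.eval_map]; simpa only [Fin.cons_succ] using ha
        have h2 : (c.map Fin.succ).eval (NStr F A) (Fin.cons y v : Fin (n + 1) → ℕ) = codeL x u := by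
          rw [Tm.eval_map]; simpa only [Fin.cons_succ] using hc
        apply ih
        · exact h1
        · show (c.map Fin.succ).eval (NStr F A) (Fin.cons y v : Fin (n + 1) → ℕ) *
            (a.map Fin.succ).eval (NStr F A) (Fin.cons y v : Fin (n + 1) → ℕ) + (Fin.cons y v : Fin (n + 1) → ℕ) 0 = _
          rw [h1, h2]; rfl
      show (∃ y : ℕ, y < a.eval (NStr F A) v ∧ ¬ (sipT j (a.map Fin.succ)
        (Tm.add (Tm.mul (c.map Fin.succ) (a.map Fin.succ)) (Tm.var 0))).sat (NStr F A) (Fin.cons y v : Fin (n + 1) → ℕ)) ↔ _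
      rw [ha]
      unfold Hier.tr
      rw [decide_eq_true_eq]
      constructor
      · rintro ⟨y, hy, h⟩
        refine ⟨y, hy, ?_⟩
        rw [key y] at h
        simpa using h
      · rintro ⟨y, hy, h⟩
        refine ⟨y, hy, ?_⟩
        rw [key y, h]
        decide

theorem sip_sat {ι : Type} (F : ι → ℕ → ℕ) (A : ℕ → Bool) (k x : ℕ) :
    (sip ι k).sat (NStr F A) ![x] ↔ Hier.tr (fun _ => x) (k + 1) (fun l => A (codeL x l)) [] = true := by
  apply sipT_sat
  · rfl
  · rfl

theorem codeL_ge (x : ℕ) (l : List ℕ) : x ^ l.length ≤ codeL x l := by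
  induction l with
  | nil => exact le_rfl
  | cons y u ih =>
      rw [List.length_cons, pow_succ, codeL]
      exact (Nat.mul_le_mul_right _ ih).trans (Nat.le_add_right _ _)

theorem codeL_inj (x : ℕ) (l l' : List ℕ) (hl : ∀ a ∈ l, a < x) (hl' : ∀ a ∈ l', a < x) (hlen : l.length = l'.length)
    (h : codeL x l = codeL x l') : l = l' := by
  induction l generalizing l' with
  | nil =>
      rw [List.length_nil] at hlen
      exact (List.length_eq_zero_iff.1 hlen.symm).symm
  | cons y u ih =>
      cases l' with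
      | nil => simp at hlen
      | cons y' u' =>
          rw [codeL, codeL] at h
          have hy : y < x := hl y (List.mem_cons_self)
          have hy' : y' < x := hl' y' (List.mem_cons_self)
          have hx : 0 < x := by omega
          have h1 : y = y' := by
            have := congrArg (fun m => m % x) h
            simp only [Nat.mul_add_mod_self_right, Nat.mod_eq_of_lt hy, Nat.mod_eq_of_lt hy'] at this
            exact this
          have h2 : codeL x u = codeL x u' := by
            subst h1
            exact Nat.eq_of_mul_eq_mul_right hx (Nat.add_right_cancel h)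
          rw [h1, ih u' (fun a ha => hl a (List.mem_cons_of_mem _ ha)) (fun a ha => hl' a (List.mem_cons_of_mem _ ha))
            (by simpa using hlen) h2]

end Pool.Agent.Lib.P548a
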