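import Pool.Agent.Lib.P548a.Circ
import Pool.Agent.Lib.P548a.Sip
import Pool.Agent.Lib.P548a.Growth

/-!
# Module Block: one block of the oracle
-/

set_option autoImplicit false

namespace Pool.Agent.Lib.P548a

open Pool.Agent.Lib.Pa76659

open Classical in
theorem dt_of_table (hs : List ((List ℕ → Bool) → Bool)) : ∀ (f : (List ℕ → Bool) → Bool)
    (_ : ∀ X X' : List ℕ → Bool, (∀ h ∈ hs, h X = h X') → f X = f X'),
    ∃ T : DT ((List ℕ → Bool) → Bool) Bool, T.depth ≤ hs.length ∧ T.QIn {h | h ∈ hs} ∧ ∀ X, f X = T.eval (fun h => h X) := by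
  induction hs with
  | nil =>
      intro f hf
      exact ⟨DT.leaf (f (fun _ => false)), Nat.zero_le _, trivial, fun X => hf X _ (by simp)⟩
  | cons h hs ih =>
      intro f hf
      let g : Bool → (List ℕ → Bool) → Bool := fun b X =>
        decide (∃ Y : List ℕ → Bool, (∀ h' ∈ hs, h' Y = h' X) ∧ h Y = b ∧ f Y = true)
      have hg : ∀ b (X X' : List ℕ → Bool), (∀ h' ∈ hs, h' X = h' X') → g b X = g b X' := by
        intro b X X' hX
        apply decide_eq_decide.2
        constructor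
        · rintro ⟨Y, h1, h2, h3⟩
          exact ⟨Y, fun h' hh => (h1 h' hh).trans (hX h' hh), h2, h3⟩
        · rintro ⟨Y, h1, h2, h3⟩
          exact ⟨Y, fun h' hh => (h1 h' hh).trans (hX h' hh).symm, h2, h3⟩
      have hgf : ∀ X, g (h X) X = f X := by
        intro X
        by_cases hf1 : f X = true
        · rw [hf1]
          exact decide_eq_true ⟨X, fun _ _ => rfl, rfl, hf1⟩
        · have hf2 : f X = false := by simpa using hf1
          rw [hf2]
          apply decide_eq_false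
          rintro ⟨Y, h1, h2, h3⟩
          apply hf1
          rw [← h3]
          apply hf
          intro h' hh
          rcases List.mem_cons.1 hh with rfl | hh
          · exact h2.symm
          · exact (h1 h' hh).symm
      obtain ⟨T₀, a1, a2, a3⟩ := ih (g false) (hg false)
      obtain ⟨T₁, b1, b2, b3⟩ := ih (g true) (hg true)
      have hsub : {h' : (List ℕ → Bool) → Bool | h' ∈ hs} ⊆ {h' | h' ∈ h :: hs} := fun h' hh => List.mem_cons_of_mem _ hh
      refine ⟨DT.node h T₀ T₁, ?_, ⟨List.mem_cons_self, a2.mono hsub, b2.mono hsub⟩, ?_⟩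
      · simp only [DT.depth, List.length_cons]
        exact Nat.succ_le_succ (max_le a1 b1)
      · intro X
        rw [← hgf X]
        simp only [DT.eval]
        by_cases hX : h X = true
        · rw [if_pos hX, hX, b3]
        · have hX' : h X = false := by simpa using hX
          rw [if_neg hX, hX', a3]

open Classical in
theorem circ_list {ι : Type} (F : ι → ℕ → ℕ) (q : ℕ) {n : ℕ} (Θ : List (Fm ι (n + 1))) (hΘ : ∀ θ ∈ Θ, θ.XB ∧ θ.rk ≤ q) :
    ∃ (c : ℕ) (τ : Tm ι Unit), ∀ θ ∈ Θ, ∀ (dec : ℕ → Option (List ℕ)) (A₀ : ℕ → Bool) (x w : ℕ) (v : Fin (n + 1) → ℕ),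
      v (Fin.last n) = x → val F τ x ≤ 2 ^ w →
      IsC Set.univ (c * (w + 1)) c (2 * q) (fun X : List ℕ → Bool => decide (θ.sat (NStr F (ovl dec A₀ X)) v)) := by
  induction Θ with
  | nil => exact ⟨0, Tm.zero, fun θ hθ => absurd hθ (by simp)⟩
  | cons θ Θ ih =>
      obtain ⟨c₁, τ₁, h₁⟩ := ih (fun θ' h' => hΘ θ' (List.mem_cons_of_mem _ h'))
      obtain ⟨c₂, τ₂, h₂⟩ := circ F q θ (hΘ θ List.mem_cons_self).1 (hΘ θ List.mem_cons_self).2
      refine ⟨c₁ + c₂, Tm.add τ₁ τ₂, fun θ' h' dec A₀ x w v hv hw => ?_⟩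
      have hw' : val F τ₁ x + val F τ₂ x ≤ 2 ^ w := hw
      rcases List.mem_cons.1 h' with rfl | h'
      · exact (h₂ dec A₀ x w v hv (le_trans (Nat.le_add_left _ _) hw')).mono (subset_refl _)
          (Nat.mul_le_mul_right _ (Nat.le_add_left _ _)) (Nat.le_add_left _ _)
      · exact (h₁ θ' h' dec A₀ x w v hv (le_trans (Nat.le_add_right _ _) hw')).mono (subset_refl _)
          (Nat.mul_le_mul_right _ (Nat.le_add_right _ _)) (Nat.le_add_right _ _)

open Classical in
/-- The position decoding of a block. -/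
noncomputable def decB (x k : ℕ) : ℕ → Option (List ℕ) := fun m =>
  if h : ∃ l : List ℕ, l.length = k + 1 ∧ (∀ a ∈ l, a < x) ∧ codeL x l = m then some (Classical.choose h) else none

theorem decB_code (x k : ℕ) (l : List ℕ) (h1 : l.length = k + 1) (h2 : ∀ a ∈ l, a < x) : decB x k (codeL x l) = some l := by
  have h : ∃ l' : List ℕ, l'.length = k + 1 ∧ (∀ a ∈ l', a < x) ∧ codeL x l' = codeL x l := ⟨l, h1, h2, rfl⟩
  have h3 := Classical.choose_spec h
  unfold decB
  rw [dif_pos h]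
  rw [codeL_inj x _ l h3.2.1 h2 (h3.1.trans h1.symm) h3.2.2]

theorem decB_none (x k : ℕ) (hx : 1 ≤ x) (i : ℕ) (hi : i < x) : decB x k i = none := by
  unfold decB
  rw [dif_neg]
  rintro ⟨l, h1, h2, h3⟩
  have h4 := codeL_ge x l
  rw [h1, h3, pow_succ] at h4
  have h5 : 1 ≤ x ^ k := Nat.one_le_pow _ _ hx
  nlinarith

theorem block {ι : Type} (F : ι → ℕ → ℕ) (hF : Subexp F) (q : ℕ) (Θ : List (Fm ι 2)) (hΘ : ∀ θ ∈ Θ, θ.XB ∧ θ.rk ≤ q)
    (E N₀ s : ℕ) (A : ℕ → Bool) : ∃ (x : ℕ) (B₀ B₁ : ℕ → Bool), N₀ < x ∧ (∀ i < s, B₀ i = A i ∧ B₁ i = A i) ∧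
      (∀ θ ∈ Θ, ∀ e ≤ E, (θ.sat (NStr F B₀) ![e, x] ↔ θ.sat (NStr F B₁) ![e, x])) ∧
      ¬ (sip ι (2 * q + 1)).sat (NStr F B₀) ![x] ∧ (sip ι (2 * q + 1)).sat (NStr F B₁) ![x] := by
  classical
  obtain ⟨c, τ, hc⟩ := circ_list F q Θ hΘ
  set k := 2 * q + 1 with hk
  set r := Θ.length * (E + 1) with hr
  obtain ⟨x₀, hx₀⟩ := growth F hF τ k r c (r * c)
  set x := x₀ + N₀ + s + 1 with hx
  have hgrow := hx₀ x (by omega)
  let dec := decB x k
  let H : Fm ι 2 × ℕ → (List ℕ → Bool) → Bool := fun p X => decide (p.1.sat (NStr F (ovl dec A X)) ![p.2, x])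
  let hs : List ((List ℕ → Bool) → Bool) := (Θ ×ˢ List.range (E + 1)).map H
  have hs_len : hs.length = r := by
    simp only [hs, List.length_map, List.length_product, List.length_range, hr]
  let f : (List ℕ → Bool) → Bool := fun X => Hier.tr (fun _ => x) (k + 1) X []
  have hnot : ¬ ∀ X X' : List ℕ → Bool, (∀ h ∈ hs, h X = h X') → f X = f X' := by
    intro hdet
    obtain ⟨T, h1, h2, h3⟩ := dt_of_table hs f hdet
    have hD : DTC r (IsC Set.univ (c * ((Nat.log 2 (val F τ x) + 1) + 1)) c (2 * q)) f := by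
      refine ⟨T, by rw [← hs_len]; exact h1, h2.mono ?_, h3⟩
      intro h hh
      obtain ⟨p, hp, rfl⟩ := List.mem_map.1 hh
      have hp' : p.1 ∈ Θ := (List.mem_product.1 hp).1
      refine hc p.1 hp' dec A x (Nat.log 2 (val F τ x) + 1) ![p.2, x] rfl ?_
      exact (Nat.lt_pow_succ_log_self (by norm_num) _).le
    have hC := DTC.isC_succ hD
    refine Hier.LB (r * (c * (Nat.log 2 (val F τ x) + 1 + 1) + 3)) (Nat.log 2 x + 1) x
      (Nat.lt_pow_succ_log_self (by norm_num) x).le k (r * c) (fun _ => x) ?_ hC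
    intro i _
    exact ⟨hgrow, le_rfl⟩
  push Not at hnot
  obtain ⟨X, X', h1, h2⟩ := hnot
  have hexists : ∃ Y₀ Y₁ : List ℕ → Bool, (∀ h ∈ hs, h Y₀ = h Y₁) ∧ f Y₀ = false ∧ f Y₁ = true := by
    cases h3 : f X with
    | false =>
        refine ⟨X, X', h1, h3, ?_⟩
        rw [h3] at h2
        simpa using h2.symm
    | true =>
        refine ⟨X', X, fun h hh => (h1 h hh).symm, ?_, h3⟩
        rw [h3] at h2
        simpa using h2.symm
  obtain ⟨Y₀, Y₁, g1, g2, g3⟩ := hexists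
  have hsip : ∀ Y : List ℕ → Bool, (sip ι k).sat (NStr F (ovl dec A Y)) ![x] ↔ f Y = true := by
    intro Y
    rw [sip_sat]
    have e : Hier.tr (fun _ => x) (k + 1) (fun l => ovl dec A Y (codeL x l)) [] = f Y := by
      refine Hier.tr_congr _ x _ _ (k + 1) [] (fun _ _ => le_rfl) (by simp) ?_
      intro v hv hv2
      simp only [ovl, dec]
      rw [decB_code x k v (by simpa using hv) hv2]
    rw [e]
  refine ⟨x, ovl dec A Y₀, ovl dec A Y₁, by omega, ?_, ?_, ?_, ?_⟩
  · intro i hi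
    have h3 : dec i = none := decB_none x k (by omega) i (by omega)
    exact ⟨by simp only [ovl, h3], by simp only [ovl, h3]⟩
  · intro θ hθ e he
    have h3 : H (θ, e) ∈ hs := List.mem_map.2 ⟨(θ, e), List.mem_product.2 ⟨hθ, List.mem_range.2 (by omega)⟩, rfl⟩
    have h4 := g1 _ h3
    simp only [H] at h4
    exact decide_eq_decide.1 h4
  · rw [hsip Y₀, g2]; decide
  · rw [hsip Y₁]; exact g3

end Pool.Agent.Lib.P548a
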