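import Pool.Agent.Lib.P548a.Block
import Pool.Agent.Lib.P548a.Count

/-!
# Module Gen: generic oracles
-/

set_option autoImplicit false

namespace Pool.Agent.Lib.P548a

theorem stab {ι : Type} (F : ι → ℕ → ℕ) {n : ℕ} (θ : Fm ι n) (hθ : θ.Bounded) (v : Fin n → ℕ) :
    ∃ s : ℕ, ∀ A B : ℕ → Bool, (∀ i < s, A i = B i) → (θ.sat (NStr F A) v ↔ θ.sat (NStr F B) v) := by
  induction θ with
  | lt s t =>
      refine ⟨0, fun A B _ => ?_⟩
      show s.eval (NStr F A) v < t.eval (NStr F A) v ↔ s.eval (NStr F B) v < t.eval (NStr F B) v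
      rw [eval_indep F A B s v, eval_indep F A B t v]
  | eq s t =>
      refine ⟨0, fun A B _ => ?_⟩
      show s.eval (NStr F A) v = t.eval (NStr F A) v ↔ s.eval (NStr F B) v = t.eval (NStr F B) v
      rw [eval_indep F A B s v, eval_indep F A B t v]
  | rel t =>
      refine ⟨t.eval (NStr F (fun _ => false)) v + 1, fun A B h => ?_⟩
      show A (t.eval (NStr F A) v) = true ↔ B (t.eval (NStr F B) v) = true
      rw [eval_indep F A (fun _ => false) t v, eval_indep F B (fun _ => false) t v, h _ (Nat.lt_succ_self _)]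
  | not φ ih =>
      obtain ⟨s, hs⟩ := ih hθ v
      exact ⟨s, fun A B h => not_congr (hs A B h)⟩
  | and φ ψ ih₁ ih₂ =>
      obtain ⟨s₁, h₁⟩ := ih₁ hθ.1 v
      obtain ⟨s₂, h₂⟩ := ih₂ hθ.2 v
      exact ⟨max s₁ s₂, fun A B h => and_congr (h₁ A B (fun i hi => h i (lt_of_lt_of_le hi (le_max_left _ _))))
        (h₂ A B (fun i hi => h i (lt_of_lt_of_le hi (le_max_right _ _))))⟩
  | ex φ ih => exact hθ.elim
  | @exB n t φ ih =>
      choose s hs using fun y : ℕ => ih hθ (Fin.cons y v : Fin (n + 1) → ℕ)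
      refine ⟨(Finset.range (t.eval (NStr F (fun _ => false)) v)).sup s, fun A B h => ?_⟩
      show (∃ y : ℕ, y < t.eval (NStr F A) v ∧ φ.sat (NStr F A) (Fin.cons y v : Fin (n + 1) → ℕ)) ↔
        (∃ y : ℕ, y < t.eval (NStr F B) v ∧ φ.sat (NStr F B) (Fin.cons y v : Fin (n + 1) → ℕ))
      rw [eval_indep F A (fun _ => false) t v, eval_indep F B (fun _ => false) t v]
      refine exists_congr (fun y => and_congr_right (fun hy => ?_))
      refine hs y A B (fun i hi => h i (lt_of_lt_of_le hi ?_))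
      exact Finset.le_sup (f := s) (Finset.mem_range.2 hy)

theorem isOpen_of_stab (S : Set (ℕ → Bool)) (h : ∀ A ∈ S, ∃ s : ℕ, ∀ B : ℕ → Bool, (∀ i < s, A i = B i) → B ∈ S) : IsOpen S := by
  rw [isOpen_iff_forall_mem_open]
  intro A hA
  obtain ⟨s, hs⟩ := h A hA
  refine ⟨{B | ∀ i < s, A i = B i}, fun B hB => hs B hB, ?_, fun i _ => rfl⟩
  have e : {B : ℕ → Bool | ∀ i < s, A i = B i} = ⋂ i ∈ Finset.range s, {B : ℕ → Bool | A i = B i} := by
    ext B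
    simp
  rw [e]
  refine isOpen_biInter_finset (fun i _ => ?_)
  have : {B : ℕ → Bool | A i = B i} = (fun B : ℕ → Bool => B i) ⁻¹' {A i} := by
    ext B
    simp [eq_comm]
  rw [this]
  exact (isOpen_discrete _).preimage (continuous_apply i)

theorem dense_of_ext (S : Set (ℕ → Bool)) (h : ∀ (A : ℕ → Bool) (s : ℕ), ∃ B : ℕ → Bool, (∀ i < s, B i = A i) ∧ B ∈ S) : Dense S := by
  rw [dense_iff_inter_open]
  intro V hV ⟨A, hA⟩
  rw [isOpen_pi_iff] at hV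
  obtain ⟨I, u, hu, hsub⟩ := hV A hA
  obtain ⟨B, hB, hBS⟩ := h A (I.sup id + 1)
  refine ⟨B, hsub ?_, hBS⟩
  intro i hi
  rw [hB i (Nat.lt_succ_of_le (Finset.le_sup (f := id) hi))]
  exact (hu i hi).2

/-- The two-point condition for given parameters. -/
def Good {ι : Type} (F : ι → ℕ → ℕ) (q : ℕ) (Θ : List (Fm ι 2)) (E N₀ : ℕ) (A : ℕ → Bool) : Prop :=
  ∃ x x' : ℕ, N₀ < x ∧ N₀ < x' ∧
    (∀ θ ∈ Θ, ∀ e ≤ E, (θ.sat (NStr F A) ![e, x] ↔ θ.sat (NStr F A) ![e, x'])) ∧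
    (sip ι (2 * q + 1)).sat (NStr F A) ![x] ∧ ¬ (sip ι (2 * q + 1)).sat (NStr F A) ![x']

open Classical in
/-- The table of the values of the formulas. -/
noncomputable def tab {ι : Type} (F : ι → ℕ → ℕ) (Θ : List (Fm ι 2)) (E : ℕ) (A : ℕ → Bool) (x : ℕ) :
    Fin Θ.length × Fin (E + 1) → Bool := fun p => decide ((Θ.get p.1).sat (NStr F A) ![p.2.val, x])

theorem tab_eq {ι : Type} (F : ι → ℕ → ℕ) (Θ : List (Fm ι 2)) (E : ℕ) (A B : ℕ → Bool) (x x' : ℕ) :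
    tab F Θ E A x = tab F Θ E B x' ↔ ∀ θ ∈ Θ, ∀ e ≤ E, (θ.sat (NStr F A) ![e, x] ↔ θ.sat (NStr F B) ![e, x']) := by
  constructor
  · intro h θ hθ e he
    obtain ⟨i, rfl⟩ := List.mem_iff_get.1 hθ
    have h1 := congrFun h (i, ⟨e, Nat.lt_succ_of_le he⟩)
    exact decide_eq_decide.1 h1
  · intro h
    funext p
    exact decide_eq_decide.2 (h _ (List.get_mem _ _) _ (Nat.le_of_lt_succ p.2.isLt))

theorem tab_stab {ι : Type} (F : ι → ℕ → ℕ) (Θ : List (Fm ι 2)) (hΘ : ∀ θ ∈ Θ, θ.Bounded) (E x : ℕ) :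
    ∃ s : ℕ, ∀ A B : ℕ → Bool, (∀ i < s, A i = B i) → tab F Θ E A x = tab F Θ E B x := by
  choose s hs using fun p : Fin Θ.length × Fin (E + 1) => stab F (Θ.get p.1) (hΘ _ (List.get_mem _ _)) ![p.2.val, x]
  refine ⟨Finset.univ.sup s, fun A B h => ?_⟩
  funext p
  refine decide_eq_decide.2 (hs p A B (fun i hi => h i (lt_of_lt_of_le hi ?_)))
  exact Finset.le_sup (f := s) (Finset.mem_univ p)

theorem good_open {ι : Type} (F : ι → ℕ → ℕ) (q : ℕ) (Θ : List (Fm ι 2)) (hΘ : ∀ θ ∈ Θ, θ.Bounded) (E N₀ : ℕ) :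
    IsOpen {A | Good F q Θ E N₀ A} := by
  refine isOpen_of_stab _ ?_
  rintro A ⟨x, x', h1, h2, h3, h4, h5⟩
  obtain ⟨s₁, hs₁⟩ := tab_stab F Θ hΘ E x
  obtain ⟨s₂, hs₂⟩ := tab_stab F Θ hΘ E x'
  obtain ⟨s₃, hs₃⟩ := stab F (sip ι (2 * q + 1)) (sip_bounded _ _) ![x]
  obtain ⟨s₄, hs₄⟩ := stab F (sip ι (2 * q + 1)) (sip_bounded _ _) ![x']
  refine ⟨s₁ + s₂ + s₃ + s₄, fun B hB => ?_⟩
  refine ⟨x, x', h1, h2, ?_, ?_, ?_⟩
  · rw [← tab_eq, ← hs₁ A B (fun i hi => hB i (by omega)), ← hs₂ A B (fun i hi => hB i (by omega)), tab_eq]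
    exact h3
  · rw [← hs₃ A B (fun i hi => hB i (by omega))]; exact h4
  · rw [← hs₄ A B (fun i hi => hB i (by omega))]; exact h5

theorem good_dense_aux {ι : Type} (F : ι → ℕ → ℕ) (hF : Subexp F) (q : ℕ) (Θ : List (Fm ι 2)) (hΘ : ∀ θ ∈ Θ, θ.XB ∧ θ.rk ≤ q)
    (E N₀ : ℕ) : ∀ (n : ℕ) (D : Finset (Fin Θ.length × Fin (E + 1) → Bool)),
    Fintype.card (Fin Θ.length × Fin (E + 1) → Bool) - D.card ≤ n → ∀ (A : ℕ → Bool) (s : ℕ),
    (∀ c ∈ D, ∃ x', N₀ < x' ∧ ∀ B : ℕ → Bool, (∀ i < s, B i = A i) → tab F Θ E B x' = c ∧ (sip ι (2 * q + 1)).sat (NStr F B) ![x']) →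
    ∃ B : ℕ → Bool, (∀ i < s, B i = A i) ∧ Good F q Θ E N₀ B := by
  classical
  intro n
  induction n with
  | zero =>
      intro D hD A s hs
      obtain ⟨x, B₀, B₁, b1, b2, b3, b4, b5⟩ := block F hF q Θ hΘ E N₀ s A
      have hDu : D = Finset.univ := by
        apply Finset.eq_univ_of_card
        exact le_antisymm (Finset.card_le_univ D) (by omega)
      obtain ⟨x', h1, h2⟩ := hs (tab F Θ E B₀ x) (hDu ▸ Finset.mem_univ _)
      obtain ⟨h3, h4⟩ := h2 B₀ (fun i hi => (b2 i hi).1)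
      exact ⟨B₀, fun i hi => (b2 i hi).1, x', x, h1, b1, (tab_eq F Θ E B₀ B₀ x' x).1 h3, h4, b4⟩
  | succ n ih =>
      intro D hD A s hs
      obtain ⟨x, B₀, B₁, b1, b2, b3, b4, b5⟩ := block F hF q Θ hΘ E N₀ s A
      by_cases hc : tab F Θ E B₀ x ∈ D
      · obtain ⟨x', h1, h2⟩ := hs _ hc
        obtain ⟨h3, h4⟩ := h2 B₀ (fun i hi => (b2 i hi).1)
        exact ⟨B₀, fun i hi => (b2 i hi).1, x', x, h1, b1, (tab_eq F Θ E B₀ B₀ x' x).1 h3, h4, b4⟩
      · have hΘb : ∀ θ ∈ Θ, θ.Bounded := fun θ h => (hΘ θ h).1.bounded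
        obtain ⟨s₁, hs₁⟩ := tab_stab F Θ hΘb E x
        obtain ⟨s₂, hs₂⟩ := stab F (sip ι (2 * q + 1)) (sip_bounded _ _) ![x]
        have htab : tab F Θ E B₀ x = tab F Θ E B₁ x := (tab_eq F Θ E B₀ B₁ x x).2 b3
        obtain ⟨B, hB, hG⟩ := ih (insert (tab F Θ E B₀ x) D) (by rw [Finset.card_insert_of_notMem hc]; omega) B₁ (s + s₁ + s₂) (by
          intro c' hc'
          rcases Finset.mem_insert.1 hc' with rfl | hc'
          · refine ⟨x, b1, fun B hB => ⟨?_, ?_⟩⟩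
            · rw [htab]
              exact hs₁ B B₁ (fun i hi => hB i (by omega))
            · rw [hs₂ B B₁ (fun i hi => hB i (by omega))]
              exact b5
          · obtain ⟨x', h1, h2⟩ := hs c' hc'
            refine ⟨x', h1, fun B hB => h2 B (fun i hi => ?_)⟩
            rw [hB i (by omega), (b2 i hi).2])
        refine ⟨B, fun i hi => ?_, hG⟩
        rw [hB i (by omega), (b2 i hi).2]

theorem two_point {ι : Type} [Countable ι] (F : ι → ℕ → ℕ) (hF : Subexp F) : ∀ᶠ A in residual (ℕ → Bool), TwoPoint F A := by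
  have hcount : Countable (Fm ι 2) := countable_fm ι 2
  have h : ∀ᶠ A in residual (ℕ → Bool), ∀ p : ℕ × List (Fm ι 2) × ℕ × ℕ, (∀ θ ∈ p.2.1, θ.XB ∧ θ.rk ≤ p.1) →
      Good F p.1 p.2.1 p.2.2.1 p.2.2.2 A := by
    rw [eventually_countable_forall]
    rintro ⟨q, Θ, E, N₀⟩
    by_cases hΘ : ∀ θ ∈ Θ, θ.XB ∧ θ.rk ≤ q
    · have h1 : {A | Good F q Θ E N₀ A} ∈ residual (ℕ → Bool) := by
        refine residual_of_dense_open (good_open F q Θ (fun θ h => (hΘ θ h).1.bounded) E N₀) ?_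
        refine dense_of_ext _ (fun A s => ?_)
        exact good_dense_aux F hF q Θ hΘ E N₀ _ ∅ le_rfl A s (by simp)
      filter_upwards [h1] with A hA _
      exact hA
    · exact Filter.Eventually.of_forall (fun A h => absurd h hΘ)
  filter_upwards [h] with A hA
  intro q Θ hΘ E N₀
  exact hA (q, Θ, E, N₀) hΘ

end Pool.Agent.Lib.P548a
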