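import Pool.Agent.Lib.P548a.Base

/-!
# Module Ax: substitution; every model of the true `Π₁`-sentences is a model of `IΔ₀(R)`
-/

set_option autoImplicit false

namespace Pool.Agent.Lib.P548a

variable {ι : Type}

/-- Substitution of terms for variables in a term. -/
def Tm.subst {α β : Type} (σ : α → Tm ι β) : Tm ι α → Tm ι β
  | .var a => σ a
  | .zero => .zero
  | .one => .one
  | .add s t => .add (s.subst σ) (t.subst σ)
  | .mul s t => .mul (s.subst σ) (t.subst σ)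
  | .fn i t => .fn i (t.subst σ)

theorem Tm.eval_subst {α β M : Type} (S : Str ι M) (σ : α → Tm ι β) (v : β → M) (t : Tm ι α) :
    (t.subst σ).eval S v = t.eval S (fun a => (σ a).eval S v) := by
  induction t with
  | var a => rfl
  | zero => rfl
  | one => rfl
  | add s t ih₁ ih₂ => simp only [Tm.subst, Tm.eval, ih₁, ih₂]
  | mul s t ih₁ ih₂ => simp only [Tm.subst, Tm.eval, ih₁, ih₂]
  | fn i t ih => simp only [Tm.subst, Tm.eval, ih]

/-- Lifting of a substitution under a quantifier. -/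
def liftS {n k : ℕ} (σ : Fin n → Tm ι (Fin k)) : Fin (n + 1) → Tm ι (Fin (k + 1)) :=
  Fin.cons (Tm.var 0) (fun i => (σ i).map Fin.succ)

theorem liftS_eval {n k : ℕ} {M : Type} (S : Str ι M) (σ : Fin n → Tm ι (Fin k)) (a : M) (v : Fin k → M) :
    (fun i => (liftS σ i).eval S (Fin.cons a v : Fin (k + 1) → M)) =
      (Fin.cons a (fun i => (σ i).eval S v) : Fin (n + 1) → M) := by
  funext i
  refine Fin.cases ?_ ?_ i
  · rfl
  · intro i
    show ((σ i).map Fin.succ).eval S (Fin.cons a v : Fin (k + 1) → M) = _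
    rw [Tm.eval_map]
    rfl

/-- Substitution of terms for variables in a formula. -/
def Fm.subst : {n : ℕ} → Fm ι n → {k : ℕ} → (Fin n → Tm ι (Fin k)) → Fm ι k
  | _, .lt s t, _, σ => .lt (s.subst σ) (t.subst σ)
  | _, .eq s t, _, σ => .eq (s.subst σ) (t.subst σ)
  | _, .rel t, _, σ => .rel (t.subst σ)
  | _, .not φ, _, σ => .not (φ.subst σ)
  | _, .and φ ψ, _, σ => .and (φ.subst σ) (ψ.subst σ)
  | _, .ex φ, _, σ => .ex (φ.subst (liftS σ))
  | _, .exB t φ, _, σ => .exB (t.subst σ) (φ.subst (liftS σ))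

theorem Fm.sat_subst {M : Type} (S : Str ι M) {n : ℕ} (φ : Fm ι n) : ∀ {k : ℕ} (σ : Fin n → Tm ι (Fin k)) (v : Fin k → M),
    (φ.subst σ).sat S v ↔ φ.sat S (fun i => (σ i).eval S v) := by
  induction φ with
  | lt s t =>
      intro k σ v
      show S.lt ((s.subst σ).eval S v) ((t.subst σ).eval S v) ↔ _
      rw [Tm.eval_subst, Tm.eval_subst]; exact Iff.rfl
  | eq s t =>
      intro k σ v
      show (s.subst σ).eval S v = (t.subst σ).eval S v ↔ _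
      rw [Tm.eval_subst, Tm.eval_subst]; exact Iff.rfl
  | rel t =>
      intro k σ v
      show S.R ((t.subst σ).eval S v) ↔ _
      rw [Tm.eval_subst]; exact Iff.rfl
  | not φ ih =>
      intro k σ v
      exact not_congr (ih σ v)
  | and φ ψ ih₁ ih₂ =>
      intro k σ v
      exact and_congr (ih₁ σ v) (ih₂ σ v)
  | ex φ ih =>
      intro k σ v
      refine exists_congr (fun a => ?_)
      rw [ih, liftS_eval]
  | exB t φ ih =>
      intro k σ v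
      refine exists_congr (fun a => and_congr ?_ ?_)
      · rw [Tm.eval_subst]
      · rw [ih, liftS_eval]

theorem Fm.bounded_subst {n : ℕ} (φ : Fm ι n) (h : φ.Bounded) : ∀ {k : ℕ} (σ : Fin n → Tm ι (Fin k)), (φ.subst σ).Bounded := by
  induction φ with
  | lt s t => intro k σ; trivial
  | eq s t => intro k σ; trivial
  | rel t => intro k σ; trivial
  | not φ ih => intro k σ; exact ih h σ
  | and φ ψ ih₁ ih₂ => intro k σ; exact ⟨ih₁ h.1 σ, ih₂ h.2 σ⟩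
  | ex φ ih => exact h.elim
  | exB t φ ih => intro k σ; exact ih h (liftS σ)

/-- Implication. -/
def Fm.imp {n : ℕ} (φ ψ : Fm ι n) : Fm ι n := Fm.not (Fm.and φ (Fm.not ψ))

theorem Fm.sat_imp {M : Type} (S : Str ι M) {n : ℕ} (φ ψ : Fm ι n) (v : Fin n → M) :
    (φ.imp ψ).sat S v ↔ (φ.sat S v → ψ.sat S v) := by
  show ¬ (φ.sat S v ∧ ¬ ψ.sat S v) ↔ _
  exact not_and_not_right

theorem Fm.bounded_imp {n : ℕ} (φ ψ : Fm ι n) (h₁ : φ.Bounded) (h₂ : ψ.Bounded) : (φ.imp ψ).Bounded := ⟨h₁, h₂⟩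

/-- Disjunction. -/
def Fm.or {n : ℕ} (φ ψ : Fm ι n) : Fm ι n := Fm.not (Fm.and (Fm.not φ) (Fm.not ψ))

theorem Fm.sat_or {M : Type} (S : Str ι M) {n : ℕ} (φ ψ : Fm ι n) (v : Fin n → M) :
    (φ.or ψ).sat S v ↔ (φ.sat S v ∨ ψ.sat S v) := by
  show ¬ (¬ φ.sat S v ∧ ¬ ψ.sat S v) ↔ _
  tauto

theorem Fm.bounded_or {n : ℕ} (φ ψ : Fm ι n) (h₁ : φ.Bounded) (h₂ : ψ.Bounded) : (φ.or ψ).Bounded := ⟨h₁, h₂⟩

theorem Fm.b_lt {n : ℕ} (s t : Tm ι (Fin n)) : (Fm.lt s t).Bounded := trivial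

theorem Fm.b_eq {n : ℕ} (s t : Tm ι (Fin n)) : (Fm.eq s t).Bounded := trivial

section axioms

variable {M : Type} (F : ι → ℕ → ℕ) (A : ℕ → Bool) (S : Str ι M) (h : PiOne F A S)

include h

theorem basic_of_piOne : Basic S where
  add_assoc x y z := h 3 (Fm.eq (Tm.add (Tm.add (Tm.var 0) (Tm.var 1)) (Tm.var 2)) (Tm.add (Tm.var 0) (Tm.add (Tm.var 1) (Tm.var 2))))
    trivial (fun v => Nat.add_assoc (v 0) (v 1) (v 2)) ![x, y, z]
  add_comm x y := h 2 (Fm.eq (Tm.add (Tm.var 0) (Tm.var 1)) (Tm.add (Tm.var 1) (Tm.var 0)))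
    trivial (fun v => Nat.add_comm (v 0) (v 1)) ![x, y]
  mul_assoc x y z := h 3 (Fm.eq (Tm.mul (Tm.mul (Tm.var 0) (Tm.var 1)) (Tm.var 2)) (Tm.mul (Tm.var 0) (Tm.mul (Tm.var 1) (Tm.var 2))))
    trivial (fun v => Nat.mul_assoc (v 0) (v 1) (v 2)) ![x, y, z]
  mul_comm x y := h 2 (Fm.eq (Tm.mul (Tm.var 0) (Tm.var 1)) (Tm.mul (Tm.var 1) (Tm.var 0)))
    trivial (fun v => Nat.mul_comm (v 0) (v 1)) ![x, y]
  mul_add x y z := h 3 (Fm.eq (Tm.mul (Tm.var 0) (Tm.add (Tm.var 1) (Tm.var 2))) (Tm.add (Tm.mul (Tm.var 0) (Tm.var 1)) (Tm.mul (Tm.var 0) (Tm.var 2))))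
    trivial (fun v => Nat.mul_add (v 0) (v 1) (v 2)) ![x, y, z]
  add_zero x := h 1 (Fm.eq (Tm.add (Tm.var 0) Tm.zero) (Tm.var 0)) trivial (fun v => Nat.add_zero (v 0)) ![x]
  mul_zero x := h 1 (Fm.eq (Tm.mul (Tm.var 0) Tm.zero) Tm.zero) trivial (fun v => Nat.mul_zero (v 0)) ![x]
  mul_one x := h 1 (Fm.eq (Tm.mul (Tm.var 0) Tm.one) (Tm.var 0)) trivial (fun v => Nat.mul_one (v 0)) ![x]
  lt_trans x y z := by
    have h1 := h 3 ((Fm.lt (Tm.var 0) (Tm.var 1)).imp ((Fm.lt (Tm.var 1) (Tm.var 2)).imp (Fm.lt (Tm.var 0) (Tm.var 2))))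
      (Fm.bounded_imp _ _ (Fm.b_lt _ _) (Fm.bounded_imp _ _ (Fm.b_lt _ _) (Fm.b_lt _ _))) (fun v => by
        rw [Fm.sat_imp, Fm.sat_imp]
        exact fun a b => Nat.lt_trans (n := v 0) (m := v 1) (k := v 2) a b) ![x, y, z]
    rw [Fm.sat_imp, Fm.sat_imp] at h1
    exact h1
  lt_irrefl x := h 1 (Fm.not (Fm.lt (Tm.var 0) (Tm.var 0))) trivial (fun v => Nat.lt_irrefl (v 0)) ![x]
  lt_total x y := by
    have h1 := h 2 ((Fm.lt (Tm.var 0) (Tm.var 1)).or ((Fm.eq (Tm.var 0) (Tm.var 1)).or (Fm.lt (Tm.var 1) (Tm.var 0))))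
      (Fm.bounded_or _ _ (Fm.b_lt _ _) (Fm.bounded_or _ _ (Fm.b_eq _ _) (Fm.b_lt _ _))) (fun v => by
        rw [Fm.sat_or, Fm.sat_or]
        exact Nat.lt_trichotomy (v 0) (v 1)) ![x, y]
    rw [Fm.sat_or, Fm.sat_or] at h1
    exact h1
  add_lt_add x y z := by
    have h1 := h 3 ((Fm.lt (Tm.var 0) (Tm.var 1)).imp (Fm.lt (Tm.add (Tm.var 0) (Tm.var 2)) (Tm.add (Tm.var 1) (Tm.var 2))))
      (Fm.bounded_imp _ _ (Fm.b_lt _ _) (Fm.b_lt _ _)) (fun v => by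
        rw [Fm.sat_imp]
        exact fun a => Nat.add_lt_add_right (n := v 0) (m := v 1) a (v 2)) ![x, y, z]
    rw [Fm.sat_imp] at h1
    exact h1
  mul_lt_mul x y z := by
    have h1 := h 3 ((Fm.lt Tm.zero (Tm.var 2)).imp ((Fm.lt (Tm.var 0) (Tm.var 1)).imp
        (Fm.lt (Tm.mul (Tm.var 0) (Tm.var 2)) (Tm.mul (Tm.var 1) (Tm.var 2)))))
      (Fm.bounded_imp _ _ (Fm.b_lt _ _) (Fm.bounded_imp _ _ (Fm.b_lt _ _) (Fm.b_lt _ _))) (fun v => by
        rw [Fm.sat_imp, Fm.sat_imp]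
        exact fun a b => Nat.mul_lt_mul_of_pos_right (n := v 0) (m := v 1) (k := v 2) b a) ![x, y, z]
    rw [Fm.sat_imp, Fm.sat_imp] at h1
    exact h1
  sub x y := by
    have h1 := h 2 ((Fm.lt (Tm.var 0) (Tm.var 1)).imp (Fm.exB (Tm.add (Tm.var 1) Tm.one) (Fm.eq (Tm.add (Tm.var 1) (Tm.var 0)) (Tm.var 2))))
      (Fm.bounded_imp _ _ (Fm.b_lt _ _) (Fm.b_eq (Tm.add (Tm.var 1) (Tm.var 0)) (Tm.var 2))) (fun v => by
        rw [Fm.sat_imp]
        intro a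
        have a' : v 0 < v 1 := a
        refine ⟨v 1 - v 0, ?_, ?_⟩
        · show v 1 - v 0 < v 1 + 1
          omega
        · show v 0 + (v 1 - v 0) = v 1
          omega) ![x, y]
    rw [Fm.sat_imp] at h1
    intro hxy
    obtain ⟨z, _, hz⟩ := h1 hxy
    exact ⟨z, hz⟩
  zero_lt_one := h 0 (Fm.lt Tm.zero Tm.one) trivial (fun _ => Nat.zero_lt_one) ![]
  discrete x := by
    have h1 := h 1 ((Fm.lt Tm.zero (Tm.var 0)).imp ((Fm.eq (Tm.var 0) Tm.one).or (Fm.lt Tm.one (Tm.var 0))))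
      (Fm.bounded_imp _ _ (Fm.b_lt _ _) (Fm.bounded_or _ _ (Fm.b_eq _ _) (Fm.b_lt _ _))) (fun v => by
        rw [Fm.sat_imp, Fm.sat_or]
        intro a
        have a' : 0 < v 0 := a
        show v 0 = 1 ∨ 1 < v 0
        omega) ![x]
    rw [Fm.sat_imp, Fm.sat_or] at h1
    exact h1
  nonneg x := by
    have h1 := h 1 ((Fm.eq (Tm.var 0) Tm.zero).or (Fm.lt Tm.zero (Tm.var 0)))
      (Fm.bounded_or _ _ (Fm.b_eq _ _) (Fm.b_lt _ _)) (fun v => by
        rw [Fm.sat_or]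
        show v 0 = 0 ∨ 0 < v 0
        omega) ![x]
    rw [Fm.sat_or] at h1
    exact h1

theorem ind_of_piOne (n : ℕ) (φ : Fm ι (n + 1)) (hφ : φ.Bounded) (v : Fin n → M)
    (h0 : φ.sat S (Fin.cons S.zero v : Fin (n + 1) → M))
    (hs : ∀ x : M, φ.sat S (Fin.cons x v : Fin (n + 1) → M) → φ.sat S (Fin.cons (S.add x S.one) v : Fin (n + 1) → M))
    (x : M) : φ.sat S (Fin.cons x v : Fin (n + 1) → M) := by
  let σ₀ : Fin (n + 1) → Tm ι (Fin (n + 1)) := Fin.cons Tm.zero (fun i => Tm.var i.succ)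
  let σ₁ : Fin (n + 1) → Tm ι (Fin (n + 2)) := Fin.cons (Tm.var 0) (fun i => Tm.var i.succ.succ)
  let σ₂ : Fin (n + 1) → Tm ι (Fin (n + 2)) := Fin.cons (Tm.add (Tm.var 0) Tm.one) (fun i => Tm.var i.succ.succ)
  have e₀ : ∀ {N : Type} (S : Str ι N) (a : N) (v : Fin n → N), (fun i => (σ₀ i).eval S (Fin.cons a v : Fin (n + 1) → N)) =
      (Fin.cons S.zero v : Fin (n + 1) → N) := by
    intro N S a v
    funext i
    refine Fin.cases ?_ ?_ i
    · rfl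
    · intro i; rfl
  have e₁ : ∀ {N : Type} (S : Str ι N) (a b : N) (v : Fin n → N),
      (fun i => (σ₁ i).eval S (Fin.cons b (Fin.cons a v : Fin (n + 1) → N) : Fin (n + 2) → N)) = (Fin.cons b v : Fin (n + 1) → N) := by
    intro N S a b v
    funext i
    refine Fin.cases ?_ ?_ i
    · rfl
    · intro i; rfl
  have e₂ : ∀ {N : Type} (S : Str ι N) (a b : N) (v : Fin n → N),
      (fun i => (σ₂ i).eval S (Fin.cons b (Fin.cons a v : Fin (n + 1) → N) : Fin (n + 2) → N)) =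
        (Fin.cons (S.add b S.one) v : Fin (n + 1) → N) := by
    intro N S a b v
    funext i
    refine Fin.cases ?_ ?_ i
    · rfl
    · intro i; rfl
  let ψ : Fm ι (n + 1) := (Fm.and (φ.subst σ₀) (Fm.not (Fm.exB (Tm.var 0) (Fm.and (φ.subst σ₁) (Fm.not (φ.subst σ₂)))))).imp φ
  have hψb : ψ.Bounded := by
    refine Fm.bounded_imp _ _ ⟨Fm.bounded_subst φ hφ σ₀, ?_⟩ hφ
    exact ⟨Fm.bounded_subst φ hφ σ₁, Fm.bounded_subst φ hφ σ₂⟩
  have hψ : ∀ {N : Type} (S : Str ι N) (a : N) (v : Fin n → N), ψ.sat S (Fin.cons a v : Fin (n + 1) → N) ↔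
      ((φ.sat S (Fin.cons S.zero v : Fin (n + 1) → N) ∧ ¬ ∃ b : N, S.lt b a ∧ (φ.sat S (Fin.cons b v : Fin (n + 1) → N) ∧
        ¬ φ.sat S (Fin.cons (S.add b S.one) v : Fin (n + 1) → N))) → φ.sat S (Fin.cons a v : Fin (n + 1) → N)) := by
    intro N S a v
    rw [Fm.sat_imp]
    show (((φ.subst σ₀).sat S (Fin.cons a v : Fin (n + 1) → N) ∧ ¬ ∃ b : N, S.lt b a ∧
      ((φ.subst σ₁).sat S (Fin.cons b (Fin.cons a v : Fin (n + 1) → N) : Fin (n + 2) → N) ∧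
      ¬ (φ.subst σ₂).sat S (Fin.cons b (Fin.cons a v : Fin (n + 1) → N) : Fin (n + 2) → N))) → _) ↔ _
    simp only [Fm.sat_subst, e₀, e₁, e₂]
  have htrue : ∀ w : Fin (n + 1) → ℕ, ψ.sat (NStr F A) w := by
    intro w
    have hw : w = (Fin.cons (w 0) (fun i => w i.succ) : Fin (n + 1) → ℕ) := (Fin.cons_self_tail w).symm
    rw [hw, hψ]
    rintro ⟨h1, h2⟩
    have h3 : ∀ y : ℕ, y ≤ w 0 → φ.sat (NStr F A) (Fin.cons y (fun i => w i.succ) : Fin (n + 1) → ℕ) := by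
      intro y
      induction y with
      | zero => intro _; exact h1
      | succ y ih =>
          intro hy
          by_contra hn
          exact h2 ⟨y, hy, ih (Nat.le_of_succ_le hy), hn⟩
    exact h3 (w 0) le_rfl
  have h4 := h (n + 1) ψ hψb htrue (Fin.cons x v : Fin (n + 1) → M)
  rw [hψ] at h4
  refine h4 ⟨h0, ?_⟩
  rintro ⟨b, _, h5, h6⟩
  exact h6 (hs b h5)

end axioms

theorem idelta0_of_piOne {ι M : Type} (F : ι → ℕ → ℕ) (A : ℕ → Bool) (S : Str ι M) (h : PiOne F A S) : IDelta0 S where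
  basic := basic_of_piOne F A S h
  ind n φ hφ v h0 hs x := ind_of_piOne F A S h n φ hφ v h0 hs x

end Pool.Agent.Lib.P548a
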