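import Pool.Agent.Lib.P548a.Base

/-!
# Module Los: Łoś theorem for bounded formulas; the cuts satisfy all true `Π₁`-sentences and collection
-/

set_option autoImplicit false

namespace Pool.Agent.Lib.P548a

variable {ι M : Type} {F : ι → ℕ → ℕ} {A : ℕ → Bool} {U : Ultrafilter ℕ} {x : ℕ → ℕ} {S : Str ι M} {m : (ℕ → ℕ) → M}

theorem cons_m (m : (ℕ → ℕ) → M) (y : ℕ → ℕ) {n : ℕ} (r : ℕ → Fin n → ℕ) :
    (fun i : Fin (n + 1) => m (fun j => (Fin.cons (y j) (r j) : Fin (n + 1) → ℕ) i)) =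
      (Fin.cons (m y) (fun i => m (fun j => r j i)) : Fin (n + 1) → M) := by
  funext i
  refine Fin.cases ?_ ?_ i
  · rfl
  · intro i; rfl

theorem bdd_cons {y : ℕ → ℕ} (hy : Bdd F U x y) {n : ℕ} {r : ℕ → Fin n → ℕ} (hr : ∀ i, Bdd F U x (fun j => r j i)) :
    ∀ i : Fin (n + 1), Bdd F U x (fun j => (Fin.cons (y j) (r j) : Fin (n + 1) → ℕ) i) := by
  intro i
  refine Fin.cases ?_ ?_ i
  · exact hy
  · intro i; exact hr i

theorem Bdd.of_le {y z : ℕ → ℕ} (hz : Bdd F U x z) (h : ∀ᶠ j in (U : Filter ℕ), y j ≤ z j) : Bdd F U x y := by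
  obtain ⟨t, ht⟩ := hz
  refine ⟨t, ?_⟩
  filter_upwards [h, ht] with j h1 h2
  exact h1.trans h2

theorem los (h : IsUlt F A U x S m) {n : ℕ} (θ : Fm ι n) (hθ : θ.Bounded) (r : ℕ → Fin n → ℕ) (hr : ∀ i, Bdd F U x (fun j => r j i)) :
    θ.sat S (fun i => m (fun j => r j i)) ↔ ∀ᶠ j in (U : Filter ℕ), θ.sat (NStr F A) (r j) := by
  induction θ with
  | lt s t =>
      show S.lt (s.eval S _) (t.eval S _) ↔ ∀ᶠ j in (U : Filter ℕ), s.eval (NStr F A) (r j) < t.eval (NStr F A) (r j)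
      rw [(h.eval _ s r hr).2, (h.eval _ t r hr).2]
      exact h.lt _ _ (h.eval _ s r hr).1 (h.eval _ t r hr).1
  | eq s t =>
      show s.eval S _ = t.eval S _ ↔ ∀ᶠ j in (U : Filter ℕ), s.eval (NStr F A) (r j) = t.eval (NStr F A) (r j)
      rw [(h.eval _ s r hr).2, (h.eval _ t r hr).2]
      exact h.eq _ _ (h.eval _ s r hr).1 (h.eval _ t r hr).1
  | rel t =>
      show S.R (t.eval S _) ↔ ∀ᶠ j in (U : Filter ℕ), A (t.eval (NStr F A) (r j)) = true
      rw [(h.eval _ t r hr).2]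
      exact h.R _ (h.eval _ t r hr).1
  | not φ ih =>
      show ¬ _ ↔ ∀ᶠ j in (U : Filter ℕ), ¬ _
      rw [Ultrafilter.eventually_not, ih hθ r hr]
  | and φ ψ ih₁ ih₂ =>
      show (_ ∧ _) ↔ ∀ᶠ j in (U : Filter ℕ), (_ ∧ _)
      rw [Filter.eventually_and, ih₁ hθ.1 r hr, ih₂ hθ.2 r hr]
  | ex φ ih => exact hθ.elim
  | @exB n t φ ih =>
      have ht := h.eval _ t r hr
      show (∃ a : M, S.lt a (t.eval S _) ∧ φ.sat S (Fin.cons a _ : Fin (n + 1) → M)) ↔
        ∀ᶠ j in (U : Filter ℕ), ∃ y : ℕ, y < t.eval (NStr F A) (r j) ∧ φ.sat (NStr F A) (Fin.cons y (r j) : Fin (n + 1) → ℕ)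
      rw [ht.2]
      constructor
      · rintro ⟨a, ha, hφ⟩
        obtain ⟨y, hy, rfl⟩ := h.surj a
        rw [← cons_m m y r, ih hθ _ (bdd_cons hy hr)] at hφ
        rw [h.lt _ _ hy ht.1] at ha
        filter_upwards [ha, hφ] with j h1 h2
        exact ⟨y j, h1, h2⟩
      · intro hj
        classical
        let y : ℕ → ℕ := fun j => if hh : ∃ y : ℕ, y < t.eval (NStr F A) (r j) ∧
          φ.sat (NStr F A) (Fin.cons y (r j) : Fin (n + 1) → ℕ) then Classical.choose hh else 0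
        have hy : ∀ᶠ j in (U : Filter ℕ), y j < t.eval (NStr F A) (r j) ∧
            φ.sat (NStr F A) (Fin.cons (y j) (r j) : Fin (n + 1) → ℕ) := by
          filter_upwards [hj] with j hh
          simp only [y]
          rw [dif_pos hh]
          exact Classical.choose_spec hh
        have hyb : Bdd F U x y := ht.1.of_le (by filter_upwards [hy] with j h1; exact h1.1.le)
        refine ⟨m y, ?_, ?_⟩
        · rw [h.lt _ _ hyb ht.1]
          filter_upwards [hy] with j h1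
          exact h1.1
        · rw [← cons_m m y r, ih hθ _ (bdd_cons hyb hr)]
          filter_upwards [hy] with j h1
          exact h1.2

theorem num_eq (h : IsUlt F A U x S m) (e : ℕ) : Bdd F U x (fun _ => e) ∧ S.num e = m (fun _ => e) := by
  induction e with
  | zero => exact h.eval 0 Tm.zero (fun _ i => i.elim0) (fun i => i.elim0)
  | succ e ih =>
      have h1 := h.eval 1 (Tm.add (Tm.var 0) Tm.one) (fun _ _ => e) (fun _ => ih.1)
      refine ⟨h1.1, ?_⟩
      refine Eq.trans ?_ h1.2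
      show S.add (S.num e) S.one = S.add (m (fun _ => e)) S.one
      rw [ih.2]

theorem bdd_x : Bdd F U x x := ⟨Tm.var (), Filter.Eventually.of_forall (fun _ => le_rfl)⟩

theorem exists_rep (h : IsUlt F A U x S m) {n : ℕ} (v : Fin n → M) :
    ∃ r : ℕ → Fin n → ℕ, (∀ i, Bdd F U x (fun j => r j i)) ∧ (fun i => m (fun j => r j i)) = v := by
  choose y hy using fun i => h.surj (v i)
  refine ⟨fun j i => y i j, fun i => (hy i).1, ?_⟩
  funext i
  exact (hy i).2

theorem piOne (h : IsUlt F A U x S m) : PiOne F A S := by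
  intro n θ hθ ht v
  obtain ⟨r, hr, rfl⟩ := exists_rep h v
  rw [los h θ hθ r hr]
  exact Filter.Eventually.of_forall (fun j => ht _)

/-- Sums of the first terms of a sequence of terms. -/
def sumT (t : ℕ → Tm ι Unit) : ℕ → Tm ι Unit
  | 0 => Tm.zero
  | i + 1 => Tm.add (sumT t i) (t i)

theorem sumT_mono (t : ℕ → Tm ι Unit) (a : ℕ) {i k : ℕ} (hik : i ≤ k) : val F (sumT t i) a ≤ val F (sumT t k) a := by
  induction k, hik using Nat.le_induction with
  | base => exact le_rfl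
  | succ k _ ih => exact ih.trans (Nat.le_add_right _ _)

theorem le_sumT (t : ℕ → Tm ι Unit) (a i : ℕ) : val F (t i) a ≤ val F (sumT t (i + 1)) a := Nat.le_add_left _ _

theorem coll (h : IsUlt F A U x S m) (hc : Countable (Tm ι Unit)) (hU : (U : Filter ℕ) ≤ Filter.atTop) : Coll S := by
  classical
  intro n φ hφ v a H
  by_contra hcon
  push Not at hcon
  obtain ⟨r, hr, rfl⟩ := exists_rep h v
  obtain ⟨α, hα, rfl⟩ := h.surj a
  have : Nonempty (Tm ι Unit) := ⟨Tm.zero⟩
  obtain ⟨t, ht⟩ := exists_surjective_nat (Tm ι Unit)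
  let b : ℕ → ℕ → ℕ := fun i j => val F (sumT t (i + 1)) (x j) + 1
  have hb : ∀ i, Bdd F U x (b i) := fun i => ⟨Tm.add (sumT t (i + 1)) Tm.one, Filter.Eventually.of_forall (fun _ => le_rfl)⟩
  let P : ℕ → ℕ → ℕ → Prop := fun i j y => y < α j ∧ ∀ z < b i j,
    ¬ φ.sat (NStr F A) (Fin.cons z (Fin.cons y (r j) : Fin (n + 1) → ℕ) : Fin (n + 2) → ℕ)
  have hP : ∀ i, ∀ᶠ j in (U : Filter ℕ), ∃ y, P i j y := by
    intro i
    obtain ⟨y', hy', hz⟩ := hcon (m (b i))
    obtain ⟨y, hy, rfl⟩ := h.surj y'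
    rw [h.lt _ _ hy hα] at hy'
    by_contra hn
    rw [← Ultrafilter.eventually_not] at hn
    let z : ℕ → ℕ := fun j => if hh : ∃ z < b i j,
      φ.sat (NStr F A) (Fin.cons z (Fin.cons (y j) (r j) : Fin (n + 1) → ℕ) : Fin (n + 2) → ℕ) then Classical.choose hh else 0
    have hz1 : ∀ᶠ j in (U : Filter ℕ), z j < b i j ∧
        φ.sat (NStr F A) (Fin.cons (z j) (Fin.cons (y j) (r j) : Fin (n + 1) → ℕ) : Fin (n + 2) → ℕ) := by
      filter_upwards [hn, hy'] with j h1 h2
      have hh : ∃ z < b i j, φ.sat (NStr F A) (Fin.cons z (Fin.cons (y j) (r j) : Fin (n + 1) → ℕ) : Fin (n + 2) → ℕ) := by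
        by_contra h3
        apply h1
        refine ⟨y j, h2, ?_⟩
        intro z hz hz2
        exact h3 ⟨z, hz, hz2⟩
      simp only [z]
      rw [dif_pos hh]
      exact Classical.choose_spec hh
    have hzb : Bdd F U x z := (hb i).of_le (by filter_upwards [hz1] with j h1; exact h1.1.le)
    refine hz (m z) ?_ ?_
    · rw [h.lt _ _ hzb (hb i)]
      filter_upwards [hz1] with j h1
      exact h1.1
    · rw [← cons_m m y r, ← cons_m m z (fun j => (Fin.cons (y j) (r j) : Fin (n + 1) → ℕ)),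
        los h φ hφ _ (bdd_cons hzb (bdd_cons hy hr))]
      filter_upwards [hz1] with j h1
      exact h1.2
  let g : ℕ → ℕ := fun j => Nat.findGreatest (fun i => ∃ y, P i j y) j
  let y : ℕ → ℕ := fun j => if hh : ∃ y, P (g j) j y then Classical.choose hh else 0
  have hy : ∀ i, ∀ᶠ j in (U : Filter ℕ), P i j (y j) := by
    intro i
    have h0 : ∀ᶠ j in (U : Filter ℕ), i ≤ j := hU (Filter.eventually_ge_atTop i)
    filter_upwards [hP i, h0] with j h1 h2
    have h3 : ∃ y, P (g j) j y := Nat.findGreatest_spec (P := fun i => ∃ y, P i j y) h2 h1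
    have h4 : i ≤ g j := Nat.le_findGreatest h2 h1
    have h5 : P (g j) j (y j) := by
      simp only [y]
      rw [dif_pos h3]
      exact Classical.choose_spec h3
    refine ⟨h5.1, fun z hz => h5.2 z (lt_of_lt_of_le hz ?_)⟩
    exact Nat.add_le_add_right (sumT_mono t (x j) (by omega)) 1
  have hya : ∀ᶠ j in (U : Filter ℕ), y j < α j := by
    filter_upwards [hy 0] with j h1
    exact h1.1
  have hyb : Bdd F U x y := hα.of_le (by filter_upwards [hya] with j h1; exact h1.le)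
  obtain ⟨z', hz'⟩ := H (m y) ((h.lt _ _ hyb hα).2 hya)
  obtain ⟨z, hz, rfl⟩ := h.surj z'
  rw [← cons_m m y r, ← cons_m m z (fun j => (Fin.cons (y j) (r j) : Fin (n + 1) → ℕ)),
    los h φ hφ _ (bdd_cons hz (bdd_cons hyb hr))] at hz'
  obtain ⟨s, hs⟩ := hz
  obtain ⟨i, rfl⟩ := ht s
  have hfalse : ∀ᶠ j in (U : Filter ℕ), False := by
    filter_upwards [hz', hs, hy i] with j h1 h2 h3
    refine h3.2 (z j) ?_ h1
    exact Nat.lt_succ_of_le (h2.trans (le_sumT t (x j) i))
  exact (Filter.eventually_false_iff_eq_bot.1 hfalse) |> U.neBot.ne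

end Pool.Agent.Lib.P548a
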