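import Pool.Agent.Lib.P548a.Base

/-!
# Module Ult: cuts of ultrapowers
-/

set_option autoImplicit false

namespace Pool.Agent.Lib.P548a

variable {ι : Type} {F : ι → ℕ → ℕ} {U : Ultrafilter ℕ} {x : ℕ → ℕ}

theorem Bdd.zero : Bdd F U x (fun _ => 0) := ⟨Tm.zero, Filter.Eventually.of_forall (fun _ => Nat.zero_le _)⟩

theorem Bdd.one : Bdd F U x (fun _ => 1) := ⟨Tm.one, Filter.Eventually.of_forall (fun _ => le_refl (1 : ℕ))⟩

theorem Bdd.add {y z : ℕ → ℕ} (hy : Bdd F U x y) (hz : Bdd F U x z) : Bdd F U x (fun j => y j + z j) := by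
  obtain ⟨s, hs⟩ := hy
  obtain ⟨t, ht⟩ := hz
  refine ⟨Tm.add s t, ?_⟩
  filter_upwards [hs, ht] with j h1 h2
  exact Nat.add_le_add h1 h2

theorem Bdd.mul {y z : ℕ → ℕ} (hy : Bdd F U x y) (hz : Bdd F U x z) : Bdd F U x (fun j => y j * z j) := by
  obtain ⟨s, hs⟩ := hy
  obtain ⟨t, ht⟩ := hz
  refine ⟨Tm.mul s t, ?_⟩
  filter_upwards [hs, ht] with j h1 h2
  exact Nat.mul_le_mul h1 h2

theorem Bdd.fn (hm : ∀ i, Monotone (F i)) {y : ℕ → ℕ} (hy : Bdd F U x y) (i : ι) : Bdd F U x (fun j => F i (y j)) := by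
  obtain ⟨s, hs⟩ := hy
  refine ⟨Tm.fn i s, ?_⟩
  filter_upwards [hs] with j h1
  exact hm i h1

theorem exists_ult {ι : Type} (F : ι → ℕ → ℕ) (hm : ∀ i, Monotone (F i)) (A : ℕ → Bool) (U : Ultrafilter ℕ) (x : ℕ → ℕ) :
    ∃ (M : Type) (S : Str ι M) (m : (ℕ → ℕ) → M), IsUlt F A U x S m := by
  classical
  let M : Type := {a : (U : Filter ℕ).Germ ℕ // ∃ y : ℕ → ℕ, Bdd F U x y ∧ (y : (U : Filter ℕ).Germ ℕ) = a}
  let rep : M → (ℕ → ℕ) := fun a => Classical.choose a.2
  have rep_bdd : ∀ a, Bdd F U x (rep a) := fun a => (Classical.choose_spec a.2).1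
  have rep_eq : ∀ a : M, (rep a : (U : Filter ℕ).Germ ℕ) = a.1 := fun a => (Classical.choose_spec a.2).2
  let m : (ℕ → ℕ) → M := fun y => if h : Bdd F U x y then ⟨(y : (U : Filter ℕ).Germ ℕ), y, h, rfl⟩
    else ⟨((fun _ => 0 : ℕ → ℕ) : (U : Filter ℕ).Germ ℕ), _, Bdd.zero, rfl⟩
  have m_val : ∀ y, Bdd F U x y → (m y).1 = (y : (U : Filter ℕ).Germ ℕ) := by
    intro y hy
    simp only [m]
    rw [dif_pos hy]
  have m_eq : ∀ y y', Bdd F U x y → Bdd F U x y' → (m y = m y' ↔ ∀ᶠ j in (U : Filter ℕ), y j = y' j) := by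
    intro y y' hy hy'
    rw [Subtype.ext_iff, m_val y hy, m_val y' hy', Filter.Germ.coe_eq]
    rfl
  have rep_m : ∀ y, Bdd F U x y → ∀ᶠ j in (U : Filter ℕ), rep (m y) j = y j := by
    intro y hy
    have h1 := rep_eq (m y)
    rw [m_val y hy, Filter.Germ.coe_eq] at h1
    exact h1
  let S : Str ι M :=
    { zero := m (fun _ => 0)
      one := m (fun _ => 1)
      add := fun a b => m (fun j => rep a j + rep b j)
      mul := fun a b => m (fun j => rep a j * rep b j)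
      fn := fun i a => m (fun j => F i (rep a j))
      lt := fun a b => ∀ᶠ j in (U : Filter ℕ), rep a j < rep b j
      R := fun a => ∀ᶠ j in (U : Filter ℕ), A (rep a j) = true }
  refine ⟨M, S, m, ?_, ?_, m_eq, ?_, ?_⟩
  · intro a
    refine ⟨rep a, rep_bdd a, ?_⟩
    rw [Subtype.ext_iff, m_val _ (rep_bdd a), rep_eq a]
  · intro n t r hr
    induction t with
    | var i => exact ⟨hr i, rfl⟩
    | zero => exact ⟨Bdd.zero, rfl⟩
    | one => exact ⟨Bdd.one, rfl⟩
    | add s t ih₁ ih₂ =>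
        refine ⟨ih₁.1.add ih₂.1, ?_⟩
        show m (fun j => rep (s.eval S (fun i => m (fun j => r j i))) j + rep (t.eval S (fun i => m (fun j => r j i))) j) = _
        rw [ih₁.2, ih₂.2]
        refine (m_eq _ _ ((rep_bdd _).add (rep_bdd _)) (ih₁.1.add ih₂.1)).2 ?_
        filter_upwards [rep_m _ ih₁.1, rep_m _ ih₂.1] with j h1 h2
        rw [h1, h2]
    | mul s t ih₁ ih₂ =>
        refine ⟨ih₁.1.mul ih₂.1, ?_⟩
        show m (fun j => rep (s.eval S (fun i => m (fun j => r j i))) j * rep (t.eval S (fun i => m (fun j => r j i))) j) = _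
        rw [ih₁.2, ih₂.2]
        refine (m_eq _ _ ((rep_bdd _).mul (rep_bdd _)) (ih₁.1.mul ih₂.1)).2 ?_
        filter_upwards [rep_m _ ih₁.1, rep_m _ ih₂.1] with j h1 h2
        rw [h1, h2]
    | fn i s ih =>
        refine ⟨ih.1.fn hm i, ?_⟩
        show m (fun j => F i (rep (s.eval S (fun i => m (fun j => r j i))) j)) = _
        rw [ih.2]
        refine (m_eq _ _ ((rep_bdd _).fn hm i) (ih.1.fn hm i)).2 ?_
        filter_upwards [rep_m _ ih.1] with j h1
        rw [h1]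
  · intro y y' hy hy'
    show (∀ᶠ j in (U : Filter ℕ), rep (m y) j < rep (m y') j) ↔ _
    constructor
    · intro h
      filter_upwards [h, rep_m y hy, rep_m y' hy'] with j h1 h2 h3
      rwa [h2, h3] at h1
    · intro h
      filter_upwards [h, rep_m y hy, rep_m y' hy'] with j h1 h2 h3
      rwa [h2, h3]
  · intro y hy
    show (∀ᶠ j in (U : Filter ℕ), A (rep (m y) j) = true) ↔ _
    constructor
    · intro h
      filter_upwards [h, rep_m y hy] with j h1 h2
      rwa [h2] at h1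
    · intro h
      filter_upwards [h, rep_m y hy] with j h1 h2
      rwa [h2]

end Pool.Agent.Lib.P548a
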