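import Pool.Agent.Lib.P548a.Defs
import Pool.Agent.Lib.Pa76659.Hier

/-!
# Auxiliary definitions: x-bounded formulas, Sipser formulas, overlays, ultrapower cuts
-/

set_option autoImplicit false

namespace Pool.Agent.Lib.P548a

open Pool.Agent.Lib.Pa76659

variable {ι : Type}

/-- Renaming of variables. -/
def Tm.map {α β : Type} (f : α → β) : Tm ι α → Tm ι β
  | .var a => .var (f a)
  | .zero => .zero
  | .one => .one
  | .add s t => .add (s.map f) (t.map f)
  | .mul s t => .mul (s.map f) (t.map f)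
  | .fn i t => .fn i (t.map f)

theorem Tm.eval_map {α β M : Type} (S : Str ι M) (f : α → β) (v : β → M) (t : Tm ι α) :
    (t.map f).eval S v = t.eval S (fun a => v (f a)) := by
  induction t with
  | var a => rfl
  | zero => rfl
  | one => rfl
  | add s t ih₁ ih₂ => simp only [Tm.map, Tm.eval, ih₁, ih₂]
  | mul s t ih₁ ih₂ => simp only [Tm.map, Tm.eval, ih₁, ih₂]
  | fn i t ih => simp only [Tm.map, Tm.eval, ih]

/-- The last variable is the only variable of the term. -/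
def Tm.Last {n : ℕ} : Tm ι (Fin n) → Prop
  | .var i => i.val + 1 = n
  | .zero => True
  | .one => True
  | .add s t => s.Last ∧ t.Last
  | .mul s t => s.Last ∧ t.Last
  | .fn _ t => t.Last

/-- Every quantifier is bounded by a term in the last variable. -/
def Fm.XB : {n : ℕ} → Fm ι n → Prop
  | _, .lt _ _ => True
  | _, .eq _ _ => True
  | _, .rel _ => True
  | _, .not φ => φ.XB
  | _, .and φ ψ => φ.XB ∧ ψ.XB
  | _, .ex _ => False
  | _, .exB t φ => t.Last ∧ φ.XB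

theorem Fm.XB.bounded {n : ℕ} (φ : Fm ι n) (h : φ.XB) : φ.Bounded := by
  induction φ with
  | lt s t => trivial
  | eq s t => trivial
  | rel t => trivial
  | not φ ih => exact ih h
  | and φ ψ ih₁ ih₂ => exact ⟨ih₁ h.1, ih₂ h.2⟩
  | ex φ ih => exact h.elim
  | exB t φ ih => exact ih h.2

/-- The value of a term in one variable in the standard model (it does not depend on the oracle). -/
def val (F : ι → ℕ → ℕ) (t : Tm ι Unit) (x : ℕ) : ℕ := t.eval (NStr F (fun _ => false)) (fun _ => x)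

/-- The code of a list in base `x`. -/
def codeL (x : ℕ) : List ℕ → ℕ
  | [] => 1
  | y :: u => codeL x u * x + y

/-- The Sipser formula with `j` levels, bound `a` (a term for `x`) and code `c`. -/
def sipT : (j : ℕ) → {n : ℕ} → (a c : Tm ι (Fin n)) → Fm ι n
  | 0, _, _, c => Fm.rel c
  | j + 1, _, a, c => Fm.exB a (Fm.not (sipT j (a.map Fin.succ) (Tm.add (Tm.mul (c.map Fin.succ) (a.map Fin.succ)) (Tm.var 0))))

/-- The Sipser formula with `k + 1` levels in the variable `x`. -/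
def sip (ι : Type) (k : ℕ) : Fm ι 1 := sipT (k + 1) (Tm.var 0) Tm.one

/-- Overlay: the oracle which is `X (l)` at the positions decoded as `l` and `A₀` elsewhere. -/
def ovl (dec : ℕ → Option (List ℕ)) (A₀ : ℕ → Bool) (X : List ℕ → Bool) : ℕ → Bool := fun m =>
  match dec m with
  | some l => X l
  | none => A₀ m

/-- The sequence `y` is bounded by a term in `x` almost everywhere. -/
def Bdd (F : ι → ℕ → ℕ) (U : Ultrafilter ℕ) (x y : ℕ → ℕ) : Prop :=
  ∃ t : Tm ι Unit, ∀ᶠ j in (U : Filter ℕ), y j ≤ val F t (x j)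

/-- `S` with the map `m` is the cut of the ultrapower of `(ℕ, A)` of all elements bounded by a term in `x`. -/
structure IsUlt {M : Type} (F : ι → ℕ → ℕ) (A : ℕ → Bool) (U : Ultrafilter ℕ) (x : ℕ → ℕ) (S : Str ι M) (m : (ℕ → ℕ) → M) :
    Prop where
  surj : ∀ a : M, ∃ y : ℕ → ℕ, Bdd F U x y ∧ m y = a
  eval : ∀ (n : ℕ) (t : Tm ι (Fin n)) (r : ℕ → Fin n → ℕ), (∀ i, Bdd F U x (fun j => r j i)) →
    Bdd F U x (fun j => t.eval (NStr F A) (r j)) ∧
      t.eval S (fun i => m (fun j => r j i)) = m (fun j => t.eval (NStr F A) (r j))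
  eq : ∀ y y' : ℕ → ℕ, Bdd F U x y → Bdd F U x y' → (m y = m y' ↔ ∀ᶠ j in (U : Filter ℕ), y j = y' j)
  lt : ∀ y y' : ℕ → ℕ, Bdd F U x y → Bdd F U x y' → (S.lt (m y) (m y') ↔ ∀ᶠ j in (U : Filter ℕ), y j < y' j)
  R : ∀ y : ℕ → ℕ, Bdd F U x y → (S.R (m y) ↔ ∀ᶠ j in (U : Filter ℕ), A (y j) = true)

/-- The tuples `r`, `r'` satisfy the same x-bounded formulas of rank at most `q` almost everywhere. -/
def EqR (F : ι → ℕ → ℕ) (A : ℕ → Bool) (U : Ultrafilter ℕ) (q : ℕ) {n : ℕ} (r r' : ℕ → Fin n → ℕ) : Prop :=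
  ∀ θ : Fm ι n, θ.XB → θ.rk ≤ q →
    ((∀ᶠ j in (U : Filter ℕ), θ.sat (NStr F A) (r j)) ↔ (∀ᶠ j in (U : Filter ℕ), θ.sat (NStr F A) (r' j)))

/-- The two-point property of the oracle `A`. -/
def TwoPoint (F : ι → ℕ → ℕ) (A : ℕ → Bool) : Prop :=
  ∀ (q : ℕ) (Θ : List (Fm ι 2)), (∀ θ ∈ Θ, θ.XB ∧ θ.rk ≤ q) → ∀ E N₀ : ℕ, ∃ x x' : ℕ, N₀ < x ∧ N₀ < x' ∧
    (∀ θ ∈ Θ, ∀ e ≤ E, (θ.sat (NStr F A) ![e, x] ↔ θ.sat (NStr F A) ![e, x'])) ∧
    (sip ι (2 * q + 1)).sat (NStr F A) ![x] ∧ ¬ (sip ι (2 * q + 1)).sat (NStr F A) ![x']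

end Pool.Agent.Lib.P548a
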