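import Pool.Agent.Lib.P548a.Base

/-!
# Module Circ: x-bounded formulas as circuits

An x-bounded formula of quantifier rank at most `q` is, on overlays, a circuit of depth `2 q` of polylogarithmic parameters.
-/

set_option autoImplicit false

namespace Pool.Agent.Lib.P548a

open Pool.Agent.Lib.Pa76659

variable {ι : Type}

/-- A term in the last variable as a term in one variable. -/
def Tm.un {n : ℕ} (t : Tm ι (Fin n)) : Tm ι Unit := t.map (fun _ => ())

theorem un_eval (F : ι → ℕ → ℕ) (A : ℕ → Bool) {n : ℕ} (t : Tm ι (Fin n)) (ht : t.Last) (v : Fin n → ℕ) (x : ℕ)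
    (hx : ∀ i : Fin n, i.val + 1 = n → v i = x) : t.eval (NStr F A) v = val F t.un x := by
  induction t with
  | var a => exact hx a ht
  | zero => rfl
  | one => rfl
  | add s t ih₁ ih₂ =>
      have h1 := ih₁ ht.1
      have h2 := ih₂ ht.2
      simp only [Tm.un, val, Tm.map, Tm.eval] at h1 h2 ⊢
      rw [h1, h2]; rfl
  | mul s t ih₁ ih₂ =>
      have h1 := ih₁ ht.1
      have h2 := ih₂ ht.2
      simp only [Tm.un, val, Tm.map, Tm.eval] at h1 h2 ⊢
      rw [h1, h2]; rfl
  | fn i t ih =>
      have h1 := ih ht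
      simp only [Tm.un, val, Tm.map, Tm.eval] at h1 ⊢
      rw [h1]; rfl

theorem eval_indep {α : Type} (F : ι → ℕ → ℕ) (A B : ℕ → Bool) (t : Tm ι α) (v : α → ℕ) :
    t.eval (NStr F A) v = t.eval (NStr F B) v := by
  induction t with
  | var a => rfl
  | zero => rfl
  | one => rfl
  | add s t ih₁ ih₂ => simp only [Tm.eval, ih₁, ih₂]; rfl
  | mul s t ih₁ ih₂ => simp only [Tm.eval, ih₁, ih₂]; rfl
  | fn i t ih => simp only [Tm.eval, ih]; rfl

/-- The functions computed by a decision tree of depth at most `c` whose queries are functions in the class `G`. -/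
def DTC (c : ℕ) (G : ((List ℕ → Bool) → Bool) → Prop) (f : (List ℕ → Bool) → Bool) : Prop :=
  ∃ T : DT ((List ℕ → Bool) → Bool) Bool, T.depth ≤ c ∧ T.QIn {h | G h} ∧ ∀ X, f X = T.eval (fun h => h X)

theorem DTC.const (c : ℕ) (G : ((List ℕ → Bool) → Bool) → Prop) (b : Bool) : DTC c G (fun _ => b) :=
  ⟨DT.leaf b, Nat.zero_le _, trivial, fun _ => rfl⟩

theorem DTC.base {G : ((List ℕ → Bool) → Bool) → Prop} {f : (List ℕ → Bool) → Bool} (h : G f) : DTC 1 G f := by
  refine ⟨DT.node f (DT.leaf false) (DT.leaf true), by simp [DT.depth], ⟨h, trivial, trivial⟩, fun X => ?_⟩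
  simp only [DT.eval]
  by_cases h : f X = true
  · rw [if_pos h, h]
  · rw [if_neg h]; simpa using h

theorem DTC.not {c : ℕ} {G : ((List ℕ → Bool) → Bool) → Prop} {f : (List ℕ → Bool) → Bool} (h : DTC c G f) :
    DTC c G (fun X => !(f X)) := by
  obtain ⟨T, h1, h2, h3⟩ := h
  exact ⟨T.map (fun b => !b), by simpa using h1, h2.map _, fun X => by simp [h3]⟩

theorem DTC.and {c d : ℕ} {G : ((List ℕ → Bool) → Bool) → Prop} {f g : (List ℕ → Bool) → Bool} (hf : DTC c G f)
    (hg : DTC d G g) : DTC (c + d) G (fun X => f X && g X) := by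
  obtain ⟨T, h1, h2, h3⟩ := hf
  obtain ⟨T', h1', h2', h3'⟩ := hg
  refine ⟨T.bind (fun b => if b = true then T' else DT.leaf false), ?_, ?_, ?_⟩
  · refine (DT.depth_bind _ T'.depth ?_ T).trans (by omega)
    intro b; split_ifs
    · exact le_rfl
    · simp [DT.depth]
  · apply h2.bind
    intro b; split_ifs
    · exact h2'
    · trivial
  · intro X
    simp only [DT.eval_bind, h3, h3']
    cases T.eval (fun h => h X) <;> simp [DT.eval]

theorem DTC.mono {c d : ℕ} {G H : ((List ℕ → Bool) → Bool) → Prop} {f : (List ℕ → Bool) → Bool} (hf : DTC c G f)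
    (hcd : c ≤ d) (hGH : ∀ h, G h → H h) : DTC d H f := by
  obtain ⟨T, h1, h2, h3⟩ := hf
  exact ⟨T, h1.trans hcd, h2.mono (fun h hh => hGH h hh), h3⟩

open Classical in
theorem DTC.isC_zero {c W t : ℕ} {f : (List ℕ → Bool) → Bool} (hf : DTC c (IsC Set.univ W t 0) f) :
    IsC Set.univ W (c * t) 0 f := by
  obtain ⟨T, h1, h2, h3⟩ := hf
  let sub : ((List ℕ → Bool) → Bool) → DT (List ℕ) Bool := fun h =>
    if hh : IsC Set.univ W t 0 h then Classical.choose hh else DT.leaf false
  have hsub : ∀ h, IsC Set.univ W t 0 h → (sub h).depth ≤ t ∧ (∀ x, h x = (sub h).eval x) := by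
    intro h hh
    have e : sub h = Classical.choose hh := by simp only [sub]; rw [dif_pos hh]
    rw [e]
    have := Classical.choose_spec hh
    exact ⟨this.1, this.2.2⟩
  have key : ∀ (T : DT ((List ℕ → Bool) → Bool) Bool) (X : List ℕ → Bool), T.QIn {h | IsC Set.univ W t 0 h} →
      T.eval (fun h => h X) = T.eval (fun h => (sub h).eval X) := by
    intro T X hT
    refine DT.eval_congr (S := {h | IsC Set.univ W t 0 h}) ?_ hT
    intro h hh
    exact (hsub h hh).2 X
  have huniv : ∀ T : DT (List ℕ) Bool, T.QIn Set.univ := by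
    intro T
    induction T with
    | leaf b => trivial
    | node v f g ih₁ ih₂ => exact ⟨trivial, ih₁, ih₂⟩
  refine ⟨T.subst sub, ?_, huniv _, ?_⟩
  · exact (DT.depth_subst sub {h | IsC Set.univ W t 0 h} t (fun h hh => (hsub h hh).1) T h2).trans
      (Nat.mul_le_mul_right _ h1)
  · intro X
    rw [h3, key T X h2, DT.eval_subst]

theorem DTC.isC_succ {c W t k : ℕ} {f : (List ℕ → Bool) → Bool} (hf : DTC c (IsC Set.univ W t k) f) :
    IsC Set.univ (c * (W + 3)) (c * t) (k + 1) f := by
  obtain ⟨T, h1, h2, h3⟩ := hf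
  have h4 := IsC.dtree {h | IsC Set.univ W t k h} (fun h => h) (fun h hh => hh) T h2
  refine IsC.congr (h4.mono (subset_refl _) (Nat.mul_le_mul_right _ h1) (Nat.mul_le_mul_right _ h1)) ?_
  intro X
  exact (h3 X).symm

theorem DTC.isC {c W t q : ℕ} {f : (List ℕ → Bool) → Bool} (hf : DTC c (IsC Set.univ W t (2 * q - 1)) f) :
    IsC Set.univ (c * (W + 3) + W) (c * t) (2 * q) f := by
  cases q with
  | zero => exact (DTC.isC_zero hf).mono (subset_refl _) (by omega) le_rfl
  | succ p =>
      have e : 2 * (p + 1) = (2 * (p + 1) - 1) + 1 := by omega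
      rw [e]
      exact (DTC.isC_succ hf).mono (subset_refl _) (by omega) le_rfl

open Classical in
theorem circ_aux (F : ι → ℕ → ℕ) {n : ℕ} (θ : Fm ι n) : 0 < n → θ.XB → ∀ q, θ.rk ≤ q →
    ∃ (c : ℕ) (τ : Tm ι Unit), ∀ (dec : ℕ → Option (List ℕ)) (A₀ : ℕ → Bool) (x w : ℕ) (v : Fin n → ℕ),
      (∀ i : Fin n, i.val + 1 = n → v i = x) → val F τ x ≤ 2 ^ w →
      DTC c (IsC Set.univ (c * (w + 1)) c (2 * q - 1))
        (fun X : List ℕ → Bool => decide (θ.sat (NStr F (ovl dec A₀ X)) v)) := by
  induction θ with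
  | @lt n s t =>
      intro _ _ q _
      refine ⟨0, Tm.zero, fun dec A₀ x w v _ _ => ?_⟩
      have e : (fun X : List ℕ → Bool => decide ((Fm.lt s t).sat (NStr F (ovl dec A₀ X)) v)) =
          fun _ => decide (s.eval (NStr F (fun _ => false)) v < t.eval (NStr F (fun _ => false)) v) := by
        funext X
        apply decide_eq_decide.2
        show s.eval (NStr F (ovl dec A₀ X)) v < t.eval (NStr F (ovl dec A₀ X)) v ↔ _
        rw [eval_indep F (ovl dec A₀ X) (fun _ => false) s v, eval_indep F (ovl dec A₀ X) (fun _ => false) t v]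
      rw [e]
      exact DTC.const _ _ _
  | @eq n s t =>
      intro _ _ q _
      refine ⟨0, Tm.zero, fun dec A₀ x w v _ _ => ?_⟩
      have e : (fun X : List ℕ → Bool => decide ((Fm.eq s t).sat (NStr F (ovl dec A₀ X)) v)) =
          fun _ => decide (s.eval (NStr F (fun _ => false)) v = t.eval (NStr F (fun _ => false)) v) := by
        funext X
        apply decide_eq_decide.2
        show s.eval (NStr F (ovl dec A₀ X)) v = t.eval (NStr F (ovl dec A₀ X)) v ↔ _
        rw [eval_indep F (ovl dec A₀ X) (fun _ => false) s v, eval_indep F (ovl dec A₀ X) (fun _ => false) t v]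
      rw [e]
      exact DTC.const _ _ _
  | @rel n t =>
      intro _ _ q _
      refine ⟨1, Tm.zero, fun dec A₀ x w v _ _ => ?_⟩
      refine DTC.base ?_
      refine IsC.lift_le (k := 0) (Nat.zero_le _) ?_
      have e : ∀ X : List ℕ → Bool, decide ((Fm.rel t).sat (NStr F (ovl dec A₀ X)) v) =
          ovl dec A₀ X (t.eval (NStr F (fun _ => false)) v) := by
        intro X
        have e1 : (Fm.rel t).sat (NStr F (ovl dec A₀ X)) v ↔ ovl dec A₀ X (t.eval (NStr F (fun _ => false)) v) = true := by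
          show ovl dec A₀ X (t.eval (NStr F (ovl dec A₀ X)) v) = true ↔ _
          rw [eval_indep F (ovl dec A₀ X) (fun _ => false) t v]
        by_cases h : ovl dec A₀ X (t.eval (NStr F (fun _ => false)) v) = true
        · rw [h, decide_eq_true_eq]; exact e1.2 h
        · rw [Bool.not_eq_true] at h
          rw [h, decide_eq_false_iff_not]
          intro h2
          rw [e1.1 h2] at h
          exact absurd h (by decide)
      cases hd : dec (t.eval (NStr F (fun _ => false)) v) with
      | none =>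
          refine ⟨DT.leaf (A₀ (t.eval (NStr F (fun _ => false)) v)), Nat.zero_le _, trivial, fun X => ?_⟩
          refine (e X).trans ?_
          simp [ovl, hd, DT.eval]
      | some l =>
          refine ⟨DT.node l (DT.leaf false) (DT.leaf true), by simp [DT.depth], ⟨trivial, trivial, trivial⟩, fun X => ?_⟩
          refine (e X).trans ?_
          simp only [ovl, hd, DT.eval]
          by_cases h : X l = true
          · rw [if_pos h, h]
          · rw [if_neg h]; simpa using h
  | @not n φ ih =>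
      intro hn hX q hq
      obtain ⟨c, τ, h⟩ := ih hn hX q hq
      refine ⟨c, τ, fun dec A₀ x w v hv hw => ?_⟩
      have h1 := (h dec A₀ x w v hv hw).not
      have e : (fun X : List ℕ → Bool => decide ((Fm.not φ).sat (NStr F (ovl dec A₀ X)) v)) =
          fun X => !(decide (φ.sat (NStr F (ovl dec A₀ X)) v)) := by
        funext X
        by_cases h : φ.sat (NStr F (ovl dec A₀ X)) v
        · have h2 : ¬ (Fm.not φ).sat (NStr F (ovl dec A₀ X)) v := fun h3 => h3 h
          rw [decide_eq_false h2, decide_eq_true h]; rfl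
        · have h2 : (Fm.not φ).sat (NStr F (ovl dec A₀ X)) v := h
          rw [decide_eq_true h2, decide_eq_false h]; rfl
      rw [e]
      exact h1
  | @and n φ ψ ih₁ ih₂ =>
      intro hn hX q hq
      simp only [Fm.rk] at hq
      obtain ⟨c₁, τ₁, h₁⟩ := ih₁ hn hX.1 q (le_trans (le_max_left _ _) hq)
      obtain ⟨c₂, τ₂, h₂⟩ := ih₂ hn hX.2 q (le_trans (le_max_right _ _) hq)
      refine ⟨c₁ + c₂, Tm.add τ₁ τ₂, fun dec A₀ x w v hv hw => ?_⟩
      have hw' : val F τ₁ x + val F τ₂ x ≤ 2 ^ w := hw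
      have g₁ := (h₁ dec A₀ x w v hv (le_trans (Nat.le_add_right _ _) hw')).mono (d := c₁)
        (H := IsC Set.univ ((c₁ + c₂) * (w + 1)) (c₁ + c₂) (2 * q - 1)) le_rfl
        (fun h hh => hh.mono (subset_refl _) (Nat.mul_le_mul_right _ (by omega)) (by omega))
      have g₂ := (h₂ dec A₀ x w v hv (le_trans (Nat.le_add_left _ _) hw')).mono (d := c₂)
        (H := IsC Set.univ ((c₁ + c₂) * (w + 1)) (c₁ + c₂) (2 * q - 1)) le_rfl
        (fun h hh => hh.mono (subset_refl _) (Nat.mul_le_mul_right _ (by omega)) (by omega))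
      have e : (fun X : List ℕ → Bool => decide ((Fm.and φ ψ).sat (NStr F (ovl dec A₀ X)) v)) =
          fun X => (decide (φ.sat (NStr F (ovl dec A₀ X)) v) && decide (ψ.sat (NStr F (ovl dec A₀ X)) v)) := by
        funext X
        rw [Bool.eq_iff_iff, Bool.and_eq_true, decide_eq_true_eq, decide_eq_true_eq, decide_eq_true_eq]
        exact Iff.rfl
      rw [e]
      exact g₁.and g₂
  | @ex n φ ih =>
      intro _ hX
      exact hX.elim
  | @exB n t φ ih =>
      intro hn hX q hq
      simp only [Fm.rk] at hq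
      obtain ⟨p, rfl⟩ : ∃ p, q = p + 1 := ⟨q - 1, by omega⟩
      obtain ⟨c, τ, h⟩ := ih (Nat.succ_pos _) hX.2 p (by omega)
      refine ⟨c * c + 4 * c + 1, Tm.add τ t.un, fun dec A₀ x w v hv hw => ?_⟩
      have hw' : val F τ x + val F t.un x ≤ 2 ^ w := hw
      have hcc : 1 ≤ c * c + 4 * c + 1 := by omega
      have hC1 : c * (c * (w + 1) + 3) + c * (w + 1) ≤ (c * c + 4 * c + 1) * (w + 1) := by nlinarith
      have hC2 : w ≤ (c * c + 4 * c + 1) * (w + 1) := by nlinarith
      refine (DTC.base (G := IsC Set.univ ((c * c + 4 * c + 1) * (w + 1)) (c * c + 4 * c + 1) (2 * p + 1)) ?_).mono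
        hcc (fun h hh => by
          have e : 2 * (p + 1) - 1 = 2 * p + 1 := by omega
          rw [e]; exact hh)
      refine IsC.of_exists (ι := Fin (val F t.un x)) ?_
        (fun y X => !(decide (φ.sat (NStr F (ovl dec A₀ X)) (Fin.cons y.val v : Fin (n + 1) → ℕ)))) ?_ ?_
      · rw [Fintype.card_fin]
        exact (le_trans (Nat.le_add_left _ _) hw').trans (Nat.pow_le_pow_right (by norm_num) hC2)
      · intro y
        have hv' : ∀ i : Fin (n + 1), i.val + 1 = n + 1 → (Fin.cons y.val v : Fin (n + 1) → ℕ) i = x := by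
          intro i hi
          obtain ⟨j, rfl⟩ : ∃ j : Fin n, i = j.succ := by
            refine ⟨⟨i.val - 1, by omega⟩, ?_⟩
            ext; simp only [Fin.val_succ]; omega
          rw [Fin.cons_succ]
          apply hv
          rw [Fin.val_succ] at hi; omega
        have h1 := (h dec A₀ x w _ hv' (le_trans (Nat.le_add_right _ _) hw')).not
        exact (DTC.isC h1).mono (subset_refl _) hC1 (by nlinarith)
      · intro X
        have e1 : (Fm.exB t φ).sat (NStr F (ovl dec A₀ X)) v ↔ ∃ y : ℕ, y < val F t.un x ∧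
            φ.sat (NStr F (ovl dec A₀ X)) (Fin.cons y v : Fin (n + 1) → ℕ) := by
          show (∃ y : ℕ, y < t.eval (NStr F (ovl dec A₀ X)) v ∧ _) ↔ _
          rw [un_eval F (ovl dec A₀ X) t hX.1 v x hv]
        rw [decide_eq_true_eq, e1]
        simp only [Bool.not_eq_false', decide_eq_true_eq]
        constructor
        · rintro ⟨y, hy, h1⟩
          exact ⟨⟨y, hy⟩, h1⟩
        · rintro ⟨y, h1⟩
          exact ⟨y.val, y.isLt, h1⟩

open Classical in
theorem circ {ι : Type} (F : ι → ℕ → ℕ) (q : ℕ) {n : ℕ} (θ : Fm ι (n + 1)) (hθ : θ.XB) (hq : θ.rk ≤ q) :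
    ∃ (c : ℕ) (τ : Tm ι Unit), ∀ (dec : ℕ → Option (List ℕ)) (A₀ : ℕ → Bool) (x w : ℕ) (v : Fin (n + 1) → ℕ),
      v (Fin.last n) = x → val F τ x ≤ 2 ^ w →
      IsC Set.univ (c * (w + 1)) c (2 * q) (fun X : List ℕ → Bool => decide (θ.sat (NStr F (ovl dec A₀ X)) v)) := by
  obtain ⟨c, τ, h⟩ := circ_aux F θ (Nat.succ_pos _) hθ q hq
  refine ⟨c * c + 4 * c + 1, τ, fun dec A₀ x w v hv hw => ?_⟩
  have hv' : ∀ i : Fin (n + 1), i.val + 1 = n + 1 → v i = x := by
    intro i hi
    have : i = Fin.last n := by ext; simp only [Fin.val_last]; omega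
    rw [this]; exact hv
  have h1 := DTC.isC (h dec A₀ x w v hv' hw)
  exact h1.mono (subset_refl _) (by nlinarith) (by nlinarith)

end Pool.Agent.Lib.P548a
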