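import Mathlib

/-!
# Arithmetic with an oracle: syntax, semantics, theories

First-order arithmetic in the language `0, 1, +, ·, <` with one extra unary predicate `R` (the oracle) and extra unary function
symbols `f i`, `i : ι` (no extra function symbol if `ι` is empty); bounded formulas, quantifier rank, the theory of all true
`Π₁`-sentences, `IΔ₀`, collection.
-/

set_option autoImplicit false

namespace Pool.Agent.Lib.P548a

/-- Terms in `0, 1, +, ·`, the function symbols `f i` and variables in `α`. -/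
inductive Tm (ι α : Type) : Type
  | var (a : α) : Tm ι α
  | zero : Tm ι α
  | one : Tm ι α
  | add (s t : Tm ι α) : Tm ι α
  | mul (s t : Tm ι α) : Tm ι α
  | fn (i : ι) (t : Tm ι α) : Tm ι α

/-- A structure for the language `0, 1, +, ·, <, R, f i`. -/
structure Str (ι M : Type) where
  zero : M
  one : M
  add : M → M → M
  mul : M → M → M
  fn : ι → M → M
  lt : M → M → Prop
  R : M → Prop

/-- The value of a term. -/
def Tm.eval {ι α M : Type} (S : Str ι M) (v : α → M) : Tm ι α → M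
  | .var a => v a
  | .zero => S.zero
  | .one => S.one
  | .add s t => S.add (s.eval S v) (t.eval S v)
  | .mul s t => S.mul (s.eval S v) (t.eval S v)
  | .fn i t => S.fn i (t.eval S v)

/-- Formulas with free variables in `Fin n`; a quantifier binds variable `0` of the formula behind it and the other variables
are moved up by one. `exB t φ` is the bounded quantifier `∃ x < t, φ`, where `t` does not contain `x`. Universal quantifiers,
disjunctions and so on are abbreviations. -/
inductive Fm (ι : Type) : ℕ → Type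
  | lt {n : ℕ} (s t : Tm ι (Fin n)) : Fm ι n
  | eq {n : ℕ} (s t : Tm ι (Fin n)) : Fm ι n
  | rel {n : ℕ} (t : Tm ι (Fin n)) : Fm ι n
  | not {n : ℕ} (φ : Fm ι n) : Fm ι n
  | and {n : ℕ} (φ ψ : Fm ι n) : Fm ι n
  | ex {n : ℕ} (φ : Fm ι (n + 1)) : Fm ι n
  | exB {n : ℕ} (t : Tm ι (Fin n)) (φ : Fm ι (n + 1)) : Fm ι n

/-- Truth of a formula in a structure under an assignment. -/
def Fm.sat {ι M : Type} (S : Str ι M) : {n : ℕ} → Fm ι n → (Fin n → M) → Prop
  | _, .lt s t, v => S.lt (s.eval S v) (t.eval S v)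
  | _, .eq s t, v => s.eval S v = t.eval S v
  | _, .rel t, v => S.R (t.eval S v)
  | _, .not φ, v => ¬ φ.sat S v
  | _, .and φ ψ, v => φ.sat S v ∧ ψ.sat S v
  | _, .ex φ, v => ∃ x : M, φ.sat S (Fin.cons x v : Fin (_ + 1) → M)
  | _, .exB t φ, v => ∃ x : M, S.lt x (t.eval S v) ∧ φ.sat S (Fin.cons x v : Fin (_ + 1) → M)

/-- Bounded formulas: every quantifier is bounded. -/
def Fm.Bounded {ι : Type} : {n : ℕ} → Fm ι n → Prop
  | _, .lt _ _ => True
  | _, .eq _ _ => True
  | _, .rel _ => True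
  | _, .not φ => φ.Bounded
  | _, .and φ ψ => φ.Bounded ∧ ψ.Bounded
  | _, .ex _ => False
  | _, .exB _ φ => φ.Bounded

/-- The quantifier rank: nesting depth of quantifiers, bounded or not. -/
def Fm.rk {ι : Type} : {n : ℕ} → Fm ι n → ℕ
  | _, .lt _ _ => 0
  | _, .eq _ _ => 0
  | _, .rel _ => 0
  | _, .not φ => φ.rk
  | _, .and φ ψ => max φ.rk ψ.rk
  | _, .ex φ => φ.rk + 1
  | _, .exB _ φ => φ.rk + 1

/-- No function symbol `f i` occurs in the term. -/
def Tm.NoFn {ι α : Type} : Tm ι α → Prop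
  | .var _ => True
  | .zero => True
  | .one => True
  | .add s t => s.NoFn ∧ t.NoFn
  | .mul s t => s.NoFn ∧ t.NoFn
  | .fn _ _ => False

/-- No function symbol `f i` occurs in the formula. -/
def Fm.NoFn {ι : Type} : {n : ℕ} → Fm ι n → Prop
  | _, .lt s t => s.NoFn ∧ t.NoFn
  | _, .eq s t => s.NoFn ∧ t.NoFn
  | _, .rel t => t.NoFn
  | _, .not φ => φ.NoFn
  | _, .and φ ψ => φ.NoFn ∧ ψ.NoFn
  | _, .ex φ => φ.NoFn
  | _, .exB t φ => t.NoFn ∧ φ.NoFn

/-- The standard model with the oracle `A` and the functions `F i`. -/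
def NStr {ι : Type} (F : ι → ℕ → ℕ) (A : ℕ → Bool) : Str ι ℕ where
  zero := 0
  one := 1
  add := fun a b => a + b
  mul := fun a b => a * b
  fn := F
  lt := fun a b => a < b
  R := fun a => A a = true

/-- `S` is a model of all `Π₁`-sentences (universal closures of bounded formulas) which are true in `(ℕ, A)`. -/
def PiOne {ι M : Type} (F : ι → ℕ → ℕ) (A : ℕ → Bool) (S : Str ι M) : Prop :=
  ∀ (n : ℕ) (θ : Fm ι n), θ.Bounded → (∀ v : Fin n → ℕ, θ.sat (NStr F A) v) → ∀ v : Fin n → M, θ.sat S v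

/-- The basic axioms of arithmetic: the structure is the nonnegative part of a discretely ordered commutative ring. -/
structure Basic {ι M : Type} (S : Str ι M) : Prop where
  add_assoc : ∀ x y z : M, S.add (S.add x y) z = S.add x (S.add y z)
  add_comm : ∀ x y : M, S.add x y = S.add y x
  mul_assoc : ∀ x y z : M, S.mul (S.mul x y) z = S.mul x (S.mul y z)
  mul_comm : ∀ x y : M, S.mul x y = S.mul y x
  mul_add : ∀ x y z : M, S.mul x (S.add y z) = S.add (S.mul x y) (S.mul x z)
  add_zero : ∀ x : M, S.add x S.zero = x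
  mul_zero : ∀ x : M, S.mul x S.zero = S.zero
  mul_one : ∀ x : M, S.mul x S.one = x
  lt_trans : ∀ x y z : M, S.lt x y → S.lt y z → S.lt x z
  lt_irrefl : ∀ x : M, ¬ S.lt x x
  lt_total : ∀ x y : M, S.lt x y ∨ x = y ∨ S.lt y x
  add_lt_add : ∀ x y z : M, S.lt x y → S.lt (S.add x z) (S.add y z)
  mul_lt_mul : ∀ x y z : M, S.lt S.zero z → S.lt x y → S.lt (S.mul x z) (S.mul y z)
  sub : ∀ x y : M, S.lt x y → ∃ z : M, S.add x z = y
  zero_lt_one : S.lt S.zero S.one
  discrete : ∀ x : M, S.lt S.zero x → x = S.one ∨ S.lt S.one x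
  nonneg : ∀ x : M, x = S.zero ∨ S.lt S.zero x

/-- `S` is a model of `IΔ₀(R)`: the basic axioms and the induction scheme for bounded formulas (with parameters; the formulas
may contain `R` and the function symbols). -/
structure IDelta0 {ι M : Type} (S : Str ι M) : Prop where
  basic : Basic S
  ind : ∀ (n : ℕ) (φ : Fm ι (n + 1)), φ.Bounded → ∀ v : Fin n → M,
    φ.sat S (Fin.cons S.zero v : Fin (n + 1) → M) →
    (∀ x : M, φ.sat S (Fin.cons x v : Fin (n + 1) → M) → φ.sat S (Fin.cons (S.add x S.one) v : Fin (n + 1) → M)) →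
    ∀ x : M, φ.sat S (Fin.cons x v : Fin (n + 1) → M)

/-- `S` satisfies the collection scheme `BΣ₁(R)` for bounded formulas (with parameters). -/
def Coll {ι M : Type} (S : Str ι M) : Prop :=
  ∀ (n : ℕ) (φ : Fm ι (n + 2)), φ.Bounded → ∀ (v : Fin n → M) (a : M),
    (∀ y : M, S.lt y a → ∃ z : M, φ.sat S (Fin.cons z (Fin.cons y v : Fin (n + 1) → M) : Fin (n + 2) → M)) →
    ∃ b : M, ∀ y : M, S.lt y a → ∃ z : M, S.lt z b ∧ φ.sat S (Fin.cons z (Fin.cons y v : Fin (n + 1) → M) : Fin (n + 2) → M)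

/-- The value of the numeral of `e`. -/
def Str.num {ι M : Type} (S : Str ι M) : ℕ → M
  | 0 => S.zero
  | e + 1 => S.add (S.num e) S.one

/-- The term `⟨a, b⟩ = (a + b) · (a + b) + a` (an injective pairing in `ℕ`). -/
def pairT {ι α : Type} (a b : Tm ι α) : Tm ι α := Tm.add (Tm.mul (Tm.add a b) (Tm.add a b)) a

/-- The formula `∃ z, R (⟨⟨e, x⟩, z⟩)` with the free variables `e` (variable `0`) and `x` (variable `1`); behind the quantifier
`z` is variable `0`, `e` is variable `1` and `x` is variable `2`. -/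
def univR (ι : Type) : Fm ι 2 := Fm.ex (Fm.rel (pairT (pairT (Tm.var 1) (Tm.var 2)) (Tm.var 0)))

/-- Every term `t(x)` grows more slowly than `2 ^ (x ^ ε)`, for every `ε > 0`. -/
def Subexp {ι : Type} (F : ι → ℕ → ℕ) : Prop :=
  ∀ (t : Tm ι Unit) (C : ℕ), ∃ x₀ : ℕ, ∀ x : ℕ, x₀ ≤ x →
    (Nat.log 2 (t.eval (NStr F (fun _ => false)) (fun _ => x))) ^ C ≤ x

end Pool.Agent.Lib.P548a
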