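import Pool.Agent.Lib.P548a.Ax

/-!
# Module Pos: an oracle for which the answer is yes
-/

set_option autoImplicit false

namespace Pool.Agent.Lib.P548a

variable {ι : Type}

/-- The pairing function of a structure. -/
def Str.pm {M : Type} (S : Str ι M) (a b : M) : M := S.add (S.mul (S.add a b) (S.add a b)) a

theorem pairT_eval {M α : Type} (S : Str ι M) (a b : Tm ι α) (v : α → M) :
    (pairT a b).eval S v = S.pm (a.eval S v) (b.eval S v) := rfl

theorem univR_sat {M : Type} (S : Str ι M) (e x : M) : (univR ι).sat S ![e, x] ↔ ∃ z : M, S.R (S.pm (S.pm e x) z) := Iff.rfl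

/-- The pairing function of the natural numbers. -/
def pr (a b : ℕ) : ℕ := (a + b) * (a + b) + a

theorem pr_inj {a b a' b' : ℕ} (h : pr a b = pr a' b') : a = a' ∧ b = b' := by
  unfold pr at h
  have h1 : a + b = a' + b' := by
    rcases Nat.lt_trichotomy (a + b) (a' + b') with h2 | h2 | h2
    · exfalso
      have h3 : (a + b + 1) * (a + b + 1) ≤ (a' + b') * (a' + b') := Nat.mul_le_mul h2 h2
      nlinarith
    · exact h2
    · exfalso
      have h3 : (a' + b' + 1) * (a' + b' + 1) ≤ (a + b) * (a + b) := Nat.mul_le_mul h2 h2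
      nlinarith
  rw [h1] at h
  constructor
  · exact Nat.add_left_cancel h
  · have := Nat.add_left_cancel h
    omega

theorem le_pr (a b : ℕ) : b ≤ pr a b := by
  unfold pr
  rcases Nat.eq_zero_or_pos (a + b) with h | h
  · omega
  · nlinarith

/-- Numerals as terms. -/
def Tm.num {α : Type} : ℕ → Tm ι α
  | 0 => .zero
  | e + 1 => .add (Tm.num e) .one

theorem Tm.num_eval {M α : Type} (S : Str ι M) (v : α → M) (e : ℕ) : (Tm.num e : Tm ι α).eval S v = S.num e := by
  induction e with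
  | zero => rfl
  | succ e ih => show S.add ((Tm.num e : Tm ι α).eval S v) S.one = _; rw [ih]; rfl

theorem NStr_num (F : ι → ℕ → ℕ) (A : ℕ → Bool) (e : ℕ) : (NStr F A).num e = e := by
  induction e with
  | zero => rfl
  | succ e ih => show (NStr F A).num e + 1 = _; rw [ih]

theorem eval_mono (F : ι → ℕ → ℕ) (hm : ∀ i, Monotone (F i)) (A B : ℕ → Bool) {α : Type} (s : Tm ι α) (v w : α → ℕ)
    (h : ∀ i, v i ≤ w i) : s.eval (NStr F A) v ≤ s.eval (NStr F B) w := by
  induction s with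
  | var a => exact h a
  | zero => exact le_rfl
  | one => exact le_rfl
  | add s t ih₁ ih₂ => exact Nat.add_le_add ih₁ ih₂
  | mul s t ih₁ ih₂ => exact Nat.mul_le_mul ih₁ ih₂
  | fn i t ih => exact hm i ih

theorem eval_maj (F : ι → ℕ → ℕ) (hm : ∀ i, Monotone (F i)) (A : ℕ → Bool) {n : ℕ} (T : Fin n → Tm ι Unit) (s : Tm ι (Fin n))
    (x : ℕ) (v : Fin n → ℕ) (h : ∀ i, v i ≤ val F (T i) x) : s.eval (NStr F A) v ≤ val F (s.subst T) x := by
  unfold val
  rw [Tm.eval_subst]
  exact eval_mono F hm A _ s v _ h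

theorem majorant (F : ι → ℕ → ℕ) (hm : ∀ i, Monotone (F i)) {n : ℕ} (φ : Fm ι n) (hφ : φ.Bounded) : ∀ T : Fin n → Tm ι Unit,
    ∃ t : Tm ι Unit, ∀ (x : ℕ) (v : Fin n → ℕ), (∀ i, v i ≤ val F (T i) x) → ∀ A B : ℕ → Bool,
      (∀ i < val F t x, A i = B i) → (φ.sat (NStr F A) v ↔ φ.sat (NStr F B) v) := by
  have hindep : ∀ {n : ℕ} (t : Tm ι (Fin n)) (A B : ℕ → Bool) (v : Fin n → ℕ), t.eval (NStr F A) v = t.eval (NStr F B) v := by
    intro n t A B v
    exact le_antisymm (eval_mono F hm A B t v v (fun _ => le_rfl)) (eval_mono F hm B A t v v (fun _ => le_rfl))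
  induction φ with
  | lt s t =>
      intro T
      refine ⟨Tm.zero, fun x v _ A B _ => ?_⟩
      show s.eval (NStr F A) v < t.eval (NStr F A) v ↔ s.eval (NStr F B) v < t.eval (NStr F B) v
      rw [hindep s A B v, hindep t A B v]
  | eq s t =>
      intro T
      refine ⟨Tm.zero, fun x v _ A B _ => ?_⟩
      show s.eval (NStr F A) v = t.eval (NStr F A) v ↔ s.eval (NStr F B) v = t.eval (NStr F B) v
      rw [hindep s A B v, hindep t A B v]
  | rel s =>
      intro T
      refine ⟨Tm.add (s.subst T) Tm.one, fun x v hv A B hAB => ?_⟩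
      show A (s.eval (NStr F A) v) = true ↔ B (s.eval (NStr F B) v) = true
      rw [hindep s B A v, hAB _ (Nat.lt_succ_of_le (eval_maj F hm A T s x v hv))]
  | not φ ih =>
      intro T
      obtain ⟨t, ht⟩ := ih hφ T
      exact ⟨t, fun x v hv A B hAB => not_congr (ht x v hv A B hAB)⟩
  | and φ ψ ih₁ ih₂ =>
      intro T
      obtain ⟨t₁, h₁⟩ := ih₁ hφ.1 T
      obtain ⟨t₂, h₂⟩ := ih₂ hφ.2 T
      refine ⟨Tm.add t₁ t₂, fun x v hv A B hAB => ?_⟩
      have hAB' : ∀ i < val F t₁ x + val F t₂ x, A i = B i := hAB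
      exact and_congr (h₁ x v hv A B (fun i hi => hAB' i (by omega))) (h₂ x v hv A B (fun i hi => hAB' i (by omega)))
  | ex φ ih => exact hφ.elim
  | @exB n s φ ih =>
      intro T
      obtain ⟨t, ht⟩ := ih hφ (Fin.cons (s.subst T) T : Fin (n + 1) → Tm ι Unit)
      refine ⟨t, fun x v hv A B hAB => ?_⟩
      show (∃ y : ℕ, y < s.eval (NStr F A) v ∧ φ.sat (NStr F A) (Fin.cons y v : Fin (n + 1) → ℕ)) ↔
        (∃ y : ℕ, y < s.eval (NStr F B) v ∧ φ.sat (NStr F B) (Fin.cons y v : Fin (n + 1) → ℕ))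
      rw [hindep s B A v]
      refine exists_congr (fun y => and_congr_right (fun hy => ?_))
      refine ht x _ ?_ A B hAB
      intro i
      refine Fin.cases ?_ ?_ i
      · exact hy.le.trans (eval_maj F hm A T s x v hv)
      · intro i; exact hv i

theorem one_var {M : Type} (v : Fin 1 → M) : v = ![v 0] := by
  funext i
  rw [Subsingleton.elim i 0]
  rfl

open Classical in
/-- The stages of the oracle. -/
noncomputable def build (F : ι → ℕ → ℕ) (c : Fm ι 1 → ℕ) (t : Fm ι 1 → Tm ι Unit) : ℕ → (ℕ → Bool)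
  | 0 => fun _ => false
  | m + 1 => Function.update (build F c t m) m
      (decide (∃ (φ : Fm ι 1) (x : ℕ), φ.Bounded ∧ m = pr (pr (c φ) x) (val F (t φ) x) ∧ φ.sat (NStr F (build F c t m)) ![x]))

/-- The oracle. -/
noncomputable def orc (F : ι → ℕ → ℕ) (c : Fm ι 1 → ℕ) (t : Fm ι 1 → Tm ι Unit) : ℕ → Bool := fun m => build F c t (m + 1) m

theorem build_eq (F : ι → ℕ → ℕ) (c : Fm ι 1 → ℕ) (t : Fm ι 1 → Tm ι Unit) (m i : ℕ) (h : i < m) :
    build F c t m i = orc F c t i := by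
  induction m, h using Nat.le_induction with
  | base => rfl
  | succ m hm ih =>
      rw [build, Function.update_of_ne (by omega), ih]

theorem orc_iff (F : ι → ℕ → ℕ) (c : Fm ι 1 → ℕ) (t : Fm ι 1 → Tm ι Unit)
    (ht : ∀ φ : Fm ι 1, φ.Bounded → ∀ (x : ℕ) (A B : ℕ → Bool), (∀ i < val F (t φ) x, A i = B i) →
      (φ.sat (NStr F A) ![x] ↔ φ.sat (NStr F B) ![x])) (m : ℕ) :
    orc F c t m = true ↔ ∃ (φ : Fm ι 1) (x : ℕ), φ.Bounded ∧ m = pr (pr (c φ) x) (val F (t φ) x) ∧
      φ.sat (NStr F (orc F c t)) ![x] := by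
  classical
  unfold orc
  rw [build, Function.update_self, decide_eq_true_eq]
  refine exists_congr (fun φ => exists_congr (fun x => and_congr_right (fun hb => and_congr_right (fun hm => ?_))))
  refine ht φ hb x _ _ (fun i hi => ?_)
  have h1 : i < m := by
    rw [hm]
    exact lt_of_lt_of_le hi (le_pr _ _)
  exact build_eq F c t m i h1

theorem positive {ι : Type} (F : ι → ℕ → ℕ) (hm : ∀ i, Monotone (F i)) (c : Fm ι 1 → ℕ) (hc : Function.Injective c) :
    ∃ B : ℕ → Bool, ∀ φ : Fm ι 1, φ.Bounded → ∀ (M : Type) (S : Str ι M), PiOne F B S → ∀ x : M,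
      (φ.sat S ![x] ↔ (univR ι).sat S ![S.num (c φ), x]) := by
  have hex : ∀ φ : Fm ι 1, ∃ t : Tm ι Unit, φ.Bounded → ∀ (x : ℕ) (A B : ℕ → Bool), (∀ i < val F t x, A i = B i) →
      (φ.sat (NStr F A) ![x] ↔ φ.sat (NStr F B) ![x]) := by
    intro φ
    by_cases hφ : φ.Bounded
    · obtain ⟨t, ht⟩ := majorant F hm φ hφ (fun _ => Tm.var ())
      refine ⟨t, fun _ x A B hAB => ht x ![x] ?_ A B hAB⟩
      intro i
      rw [Subsingleton.elim i 0]
      exact le_refl x
    · exact ⟨Tm.zero, fun h => absurd h hφ⟩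
  choose t ht using hex
  refine ⟨orc F c t, fun φ hφ M S hS x => ?_⟩
  have hB := orc_iff F c t ht
  rw [univR_sat]
  constructor
  · intro h1
    have h2 := hS 1 (φ.imp (Fm.rel (pairT (pairT (Tm.num (c φ)) (Tm.var 0)) ((t φ).map (fun _ => 0)))))
      (Fm.bounded_imp _ _ hφ (show (Fm.rel (pairT (pairT (Tm.num (c φ)) (Tm.var 0)) ((t φ).map (fun _ => 0))) : Fm ι 1).Bounded from trivial))
      (by
        intro v
        rw [Fm.sat_imp, one_var v]
        intro h3
        show orc F c t ((pairT (pairT (Tm.num (c φ)) (Tm.var 0)) ((t φ).map (fun _ => 0))).eval (NStr F (orc F c t)) ![v 0]) = true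
        rw [hB]
        refine ⟨φ, v 0, hφ, ?_, h3⟩
        rw [pairT_eval, pairT_eval, Tm.num_eval, NStr_num, Tm.eval_map]
        have e1 : (t φ).eval (NStr F (orc F c t)) (fun a => ![v 0] ((fun _ => 0 : Unit → Fin 1) a)) = val F (t φ) (v 0) :=
          le_antisymm (eval_mono F hm _ _ (t φ) _ _ (fun _ => le_rfl)) (eval_mono F hm _ _ (t φ) _ _ (fun _ => le_rfl))
        rw [e1]
        rfl) ![x]
    rw [Fm.sat_imp] at h2
    have h3 : S.R ((pairT (pairT (Tm.num (c φ)) (Tm.var 0)) ((t φ).map (fun _ => 0))).eval S ![x]) := h2 h1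
    rw [pairT_eval, pairT_eval, Tm.num_eval] at h3
    exact ⟨_, h3⟩
  · rintro ⟨z, hz⟩
    have h2 := hS 2 ((Fm.rel (pairT (pairT (Tm.num (c φ)) (Tm.var 0)) (Tm.var 1))).imp (φ.subst (fun _ => Tm.var 0)))
      (Fm.bounded_imp _ _ (show (Fm.rel (pairT (pairT (Tm.num (c φ)) (Tm.var 0)) (Tm.var 1)) : Fm ι 2).Bounded from trivial)
        (Fm.bounded_subst φ hφ _))
      (by
        intro v
        rw [Fm.sat_imp, Fm.sat_subst]
        intro h3
        have h4 : orc F c t ((pairT (pairT (Tm.num (c φ)) (Tm.var 0)) (Tm.var 1)).eval (NStr F (orc F c t)) v) = true := h3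
        rw [pairT_eval, pairT_eval, Tm.num_eval, NStr_num, hB] at h4
        obtain ⟨ψ, y, hψ, h5, h6⟩ := h4
        have h7 : pr (pr (c φ) (v 0)) (v 1) = pr (pr (c ψ) y) (val F (t ψ) y) := h5
        have h8 := pr_inj (pr_inj h7).1
        have h9 := hc h8.1
        subst h9
        have e : (fun i : Fin 1 => (Tm.var 0 : Tm ι (Fin 2)).eval (NStr F (orc F c t)) v) = ![y] := by
          funext i
          rw [Subsingleton.elim i 0]
          exact h8.2
        rw [e]
        exact h6) ![x, z]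
    rw [Fm.sat_imp, Fm.sat_subst] at h2
    have h3 : S.R ((pairT (pairT (Tm.num (c φ)) (Tm.var 0)) (Tm.var 1)).eval S ![x, z]) := by
      rw [pairT_eval, pairT_eval, Tm.num_eval]
      exact hz
    have h4 := h2 h3
    have e : (fun i : Fin 1 => (Tm.var 0 : Tm ι (Fin 2)).eval S ![x, z]) = ![x] := by
      funext i
      rw [Subsingleton.elim i 0]
      rfl
    rw [e] at h4
    exact h4

end Pool.Agent.Lib.P548a
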