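import Pool.Agent.Lib.P548a.Gen
import Pool.Agent.Lib.P548a.Ult
import Pool.Agent.Lib.P548a.Game
import Pool.Agent.Lib.P548a.Ax
import Pool.Agent.Lib.P548a.Pos

/-!
# Module Main: no truth definition of any complexity
-/

set_option autoImplicit false

namespace Pool.Agent.Lib.P548a

theorem vec_two {M : Type} (m : (ℕ → ℕ) → M) (y x : ℕ → ℕ) :
    (fun i : Fin 2 => m (fun j => (![y j, x j] : Fin 2 → ℕ) i)) = ![m y, m x] := by
  funext i
  refine Fin.cases ?_ ?_ i
  · rfl
  · intro i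
    rw [Subsingleton.elim i 0]
    rfl

theorem vec_one {M : Type} (m : (ℕ → ℕ) → M) (x : ℕ → ℕ) :
    (fun i : Fin 1 => m (fun j => (![x j] : Fin 1 → ℕ) i)) = ![m x] := by
  funext i
  rw [Subsingleton.elim i 0]
  rfl

theorem negative {ι : Type} [Countable ι] (F : ι → ℕ → ℕ) (hm : ∀ i, Monotone (F i)) (hF : Subexp F) :
    ∀ᶠ A in residual (ℕ → Bool), ∀ q : ℕ, ∃ φ : Fm ι 1, φ.Bounded ∧ φ.NoFn ∧
      ∀ (Φ : Fm ι 2) (e : ℕ), Φ.rk ≤ q → ∃ (M : Type) (S : Str ι M), PiOne F A S ∧ IDelta0 S ∧ Coll S ∧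
        ∃ x : M, ¬ (φ.sat S ![x] ↔ Φ.sat S ![S.num e, x]) := by
  classical
  filter_upwards [two_point F hF] with A hA
  intro q
  refine ⟨sip ι (2 * q + 1), sip_bounded _ _, sip_noFn _ _, fun Φ e hΦ => ?_⟩
  have hcf : ∀ n, Countable (Fm ι n) := fun n => countable_fm ι n
  have hct : Countable (Tm ι Unit) := countable_tm ι Unit
  have hne : Nonempty (Fm ι 2) := ⟨Fm.eq Tm.zero Tm.zero⟩
  have hc2 : Countable (Fm ι 2) := hcf 2
  obtain ⟨θ, hθ⟩ := exists_surjective_nat (Fm ι 2)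
  let Θ : ℕ → List (Fm ι 2) := fun j => ((List.range (j + 1)).map θ).filter (fun η => decide (η.XB ∧ η.rk ≤ q))
  have hΘ : ∀ j, ∀ η ∈ Θ j, η.XB ∧ η.rk ≤ q := by
    intro j η hη
    have := (List.mem_filter.1 hη).2
    exact of_decide_eq_true this
  choose x x' h1 h2 h3 h4 h5 using fun j => hA q (Θ j) (hΘ j) e j
  let U : Ultrafilter ℕ := Filter.hyperfilter ℕ
  have hU : (U : Filter ℕ) ≤ Filter.atTop := by
    rw [← Nat.cofinite_eq_atTop]
    exact Filter.hyperfilter_le_cofinite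
  obtain ⟨M, S, m, hS⟩ := exists_ult F hm A U x
  obtain ⟨M', S', m', hS'⟩ := exists_ult F hm A U x'
  have hE : EqR F A U q (fun j => (![e, x j] : Fin 2 → ℕ)) (fun j => (![e, x' j] : Fin 2 → ℕ)) := by
    intro η hη1 hη2
    obtain ⟨i, rfl⟩ := hθ η
    have h0 : ∀ᶠ j in (U : Filter ℕ), ((θ i).sat (NStr F A) ![e, x j] ↔ (θ i).sat (NStr F A) ![e, x' j]) := by
      filter_upwards [hU (Filter.eventually_ge_atTop i)] with j hj
      refine h3 j (θ i) ?_ e le_rfl
      refine List.mem_filter.2 ⟨List.mem_map.2 ⟨i, List.mem_range.2 ?_, rfl⟩, decide_eq_true ⟨hη1, hη2⟩⟩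
      exact Nat.lt_succ_of_le hj
    exact Filter.eventually_congr h0
  have hgame := game hS hS' hU hcf Φ q hΦ (fun j => ![e, x j]) (fun j => ![e, x' j]) (fun _ => rfl) (fun _ => rfl)
    (by
      intro i
      refine Fin.cases ?_ ?_ i
      · exact (num_eq hS e).1
      · intro i
        rw [Subsingleton.elim i 0]
        exact bdd_x)
    (by
      intro i
      refine Fin.cases ?_ ?_ i
      · exact (num_eq hS' e).1
      · intro i
        rw [Subsingleton.elim i 0]
        exact bdd_x) hE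
  rw [vec_two m (fun _ => e) x, vec_two m' (fun _ => e) x', ← (num_eq hS e).2, ← (num_eq hS' e).2] at hgame
  have hs1 : (sip ι (2 * q + 1)).sat S ![m x] := by
    rw [← vec_one m x, los hS _ (sip_bounded _ _) (fun j => ![x j]) (fun i => by rw [Subsingleton.elim i 0]; exact bdd_x)]
    exact Filter.Eventually.of_forall (fun j => h4 j)
  have hs2 : ¬ (sip ι (2 * q + 1)).sat S' ![m' x'] := by
    rw [← vec_one m' x', los hS' _ (sip_bounded _ _) (fun j => ![x' j]) (fun i => by rw [Subsingleton.elim i 0]; exact bdd_x),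
      ← Ultrafilter.eventually_not]
    exact Filter.Eventually.of_forall (fun j => h5 j)
  by_cases hcase : Φ.sat S ![S.num e, m x]
  · refine ⟨M', S', piOne hS', idelta0_of_piOne F A S' (piOne hS'), coll hS' hct hU, m' x', ?_⟩
    intro h
    exact hs2 (h.2 (hgame.1 hcase))
  · refine ⟨M, S, piOne hS, idelta0_of_piOne F A S (piOne hS), coll hS hct hU, m x, ?_⟩
    intro h
    exact hcase (h.1 hs1)

end Pool.Agent.Lib.P548a
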